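import Pool.Agent.Helper59.KT.Discrete

/-! Project KT (MP_478427_gt): bounds for discrete closed minimisers. -/

set_option maxSynthPendingDepth 3
set_option linter.unusedSectionVars false

namespace Helper59.KT

open Set Filter Topology
open scoped NNReal

variable {V : Type*} [NormedAddCommGroup V] [NormedSpace ℝ V] [FiniteDimensional ℝ V]
variable {L : AddSubgroup V} {K : Set V} {g : V → V →L[ℝ] V →L[ℝ] ℝ}

lemma force_smul (x v : V) (c : ℝ) : force g x (c • v) = c ^ 2 • force g x v := by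
  ext1 w
  rw [smul_apply, force_apply, force_apply, smul_eq_mul]
  simp only [map_smul, smul_apply, smul_eq_mul]
  ring

lemma sum_range_zmod (N : ℕ) [NeZero N] (f : ZMod N → ℝ) :
    ∑ s ∈ Finset.range N, f (s : ZMod N) = ∑ i, f i := by
  refine Finset.sum_bij' (fun s _ => (s : ZMod N)) (fun i _ => i.val) ?_ ?_ ?_ ?_ ?_
  · intro s _; exact Finset.mem_univ _
  · intro i _; exact Finset.mem_range.mpr (ZMod.val_lt i)
  · intro s hs; exact ZMod.val_natCast_of_lt (Finset.mem_range.mp hs)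
  · intro i _; exact ZMod.natCast_zmod_val i
  · intro s _; rfl

/-- Discrete solutions: step `h`, edges `h • v i`, momenta `p i`. -/
structure DSol (g : V → V →L[ℝ] V →L[ℝ] ℝ) (L : AddSubgroup V) (N : ℕ) (l : V) (h : ℝ)
    (x v : ℤ → V) (p : ℤ → V →L[ℝ] ℝ) : Prop where
  step : ∀ k, x (k + 1) - x k = h • v k
  mom : ∀ k, g (x k) (v k) = p k
  euler : ∀ k, p (k + 1) - p k = h • force g (x (k + 1)) (v (k + 1))
  x_per : ∀ k, x (k + N) = x k + l
  p_per : ∀ k, p (k + N) = p k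

section
variable (N : ℕ) [NeZero N] (l : V)

/-- The polygon as a sequence. -/
noncomputable def xs (y : ZMod N → V) (k : ℤ) : V := y (k : ZMod N) + ((k : ℝ) / N) • l

lemma xs_eq (y : ZMod N → V) (k : ℤ) :
    xs N l y k = vtx N l y (k : ZMod N) + (k / N : ℤ) • l := by
  unfold xs vtx
  have hN : (N : ℝ) ≠ 0 := by exact_mod_cast NeZero.ne N
  have h1 : (((k : ZMod N).val : ℤ)) = k % N := ZMod.val_intCast k
  have h2 : ((k : ZMod N).val : ℝ) = ((k % N : ℤ) : ℝ) := by
    rw [← h1]; simp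
  have h3 : (k : ℝ) = ((k % N : ℤ) : ℝ) + N * ((k / N : ℤ) : ℝ) := by
    have := Int.emod_add_mul_ediv k N
    exact_mod_cast this.symm
  rw [h2, add_assoc]
  congr 1
  rw [← Int.cast_smul_eq_zsmul ℝ, ← add_smul]
  congr 1
  rw [h3]
  have h4 : ((((k % N : ℤ) : ℝ) + N * ((k / N : ℤ) : ℝ)) / N) =
      ((k % N : ℤ) : ℝ) / N + ((k / N : ℤ) : ℝ) := by field_simp
  exact h4

lemma g_xs (hg : IsPerMetric L g) (hl : l ∈ L) (y : ZMod N → V) (k : ℤ) :
    g (xs N l y k) = g (vtx N l y (k : ZMod N)) := by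
  rw [xs_eq]
  exact hg.periodic _ _ (L.zsmul_mem hl _)

lemma force_xs (hg : IsPerMetric L g) (hl : l ∈ L) (y : ZMod N → V) (k : ℤ) (v : V) :
    force g (xs N l y k) v = force g (vtx N l y (k : ZMod N)) v := by
  unfold force
  rw [xs_eq, fderiv_per g _ (fun x => hg.periodic x _ (L.zsmul_mem hl _))]

/-- A minimiser gives a discrete solution. -/
lemma dsol_of_min (hg : IsPerMetric L g) (hl : l ∈ L) {y : ZMod N → V}
    (hmin : ∀ y', act g N l y ≤ act g N l y') {h : ℝ} (hh : 0 < h) :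
    DSol g L N l h (xs N l y) (fun k => h⁻¹ • edge N l y (k : ZMod N))
      (fun k => g (vtx N l y (k : ZMod N)) (h⁻¹ • edge N l y (k : ZMod N))) := by
  have hN : (N : ℝ) ≠ 0 := by exact_mod_cast NeZero.ne N
  refine ⟨?_, ?_, ?_, ?_, ?_⟩
  · intro k
    rw [smul_smul, mul_inv_cancel₀ hh.ne', one_smul]
    unfold xs edge
    have h1 : (((k + 1 : ℤ) : ℝ) / N) • l = ((k : ℝ) / N) • l + (N : ℝ)⁻¹ • l := by
      rw [← add_smul]; congr 1; push_cast; field_simp
    rw [h1]
    push_cast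
    abel
  · intro k
    rw [g_xs N l hg hl]
  · intro k
    have h1 := euler N l hg hmin ((k + 1 : ℤ) : ZMod N)
    have h2 : (((k + 1 : ℤ) : ZMod N)) - 1 = (k : ZMod N) := by push_cast; ring
    rw [h2] at h1
    simp only [map_smul]
    rw [force_xs N l hg hl, force_smul, ← smul_sub, h1, smul_smul]
    congr 1
    field_simp
  · intro k
    unfold xs
    have h1 : (((k + N : ℤ) : ℝ) / N) • l = ((k : ℝ) / N) • l + l := by
      nth_rw 3 [← one_smul ℝ l]
      rw [← add_smul]; congr 1; push_cast; field_simp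
    rw [h1]
    push_cast
    simp [add_assoc]
  · intro k
    push_cast
    simp

lemma bound_p {lam Lam D : ℝ} (C : Consts g lam Lam D) {h : ℝ} (hh : 0 < h)
    {y : ZMod N → V} (p : ZMod N → V →L[ℝ] ℝ) (w : ZMod N → V)
    (hp : ∀ i, p i = g (vtx N l y i) (w i))
    (hEL : ∀ i, p i - p (i - 1) = h • force g (vtx N l y i) (w i)) {M : ℝ}
    (hM : ∑ i, h * ‖w i‖ ^ 2 ≤ M) (i : ZMod N) :
    ‖p i‖ ≤ Lam * Real.sqrt (M / (N * h)) + D / 2 * M := by
  have hN : (0 : ℝ) < N := by exact_mod_cast Nat.pos_of_ne_zero (NeZero.ne N)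
  have hD := C.D_pos
  have hM0 : 0 ≤ M := (Finset.sum_nonneg fun i _ => by positivity).trans hM
  -- a small velocity
  obtain ⟨i0, hi0⟩ : ∃ i0, h * ‖w i0‖ ^ 2 ≤ M / N := by
    by_contra hcon
    push Not at hcon
    have h1 : ∑ i : ZMod N, M / N < ∑ i, h * ‖w i‖ ^ 2 :=
      Finset.sum_lt_sum_of_nonempty ⟨0, Finset.mem_univ _⟩ fun i _ => hcon i
    rw [Finset.sum_const, Finset.card_univ, ZMod.card, nsmul_eq_mul,
      mul_div_cancel₀ _ hN.ne'] at h1
    linarith
  have hi1 : ‖w i0‖ ≤ Real.sqrt (M / (N * h)) := by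
    apply Real.le_sqrt_of_sq_le
    rw [le_div_iff₀ (by positivity)]
    rw [le_div_iff₀ hN] at hi0
    nlinarith
  have hp0 : ‖p i0‖ ≤ Lam * Real.sqrt (M / (N * h)) := by
    rw [hp]
    refine (C.norm_g_le _ _).trans ?_
    have := C.Lam_pos
    gcongr
  -- variation
  set inc : ZMod N → ℝ := fun j => D / 2 * (h * ‖w j‖ ^ 2) with hinc
  have hinc0 : ∀ j, 0 ≤ inc j := fun j => by simp only [hinc]; positivity
  have hstep : ∀ j, ‖p j - p (j - 1)‖ ≤ inc j := by
    intro j
    rw [hEL, norm_smul, Real.norm_eq_abs, abs_of_pos hh]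
    calc h * ‖force g (vtx N l y j) (w j)‖ ≤ h * (D / 2 * ‖w j‖ ^ 2) := by
          gcongr; exact C.force_le _ _
      _ = inc j := by simp only [hinc]; ring
  have hvar : ∀ t : ℕ, ‖p (i0 + t) - p i0‖ ≤ ∑ s ∈ Finset.range t, inc (i0 + 1 + s) := by
    intro t
    induction t with
    | zero => simp
    | succ t ih =>
      rw [Finset.sum_range_succ]
      have h1 : p (i0 + ((t + 1 : ℕ) : ZMod N)) - p i0 =
          (p (i0 + t) - p i0) + (p (i0 + 1 + t) - p (i0 + 1 + t - 1)) := by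
        have e1 : i0 + ((t + 1 : ℕ) : ZMod N) = i0 + 1 + t := by push_cast; ring
        have e2 : i0 + 1 + (t : ZMod N) - 1 = i0 + t := by ring
        rw [e1, e2]; abel
      rw [h1]
      exact (norm_add_le _ _).trans (add_le_add ih (hstep _))
  have htot : ∑ s ∈ Finset.range N, inc (i0 + 1 + s) ≤ D / 2 * M := by
    rw [sum_range_zmod N (fun s => inc (i0 + 1 + s))]
    have h1 : ∑ s : ZMod N, inc (i0 + 1 + s) = ∑ s, inc s :=
      Equiv.sum_comp (Equiv.addLeft (i0 + 1)) inc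
    rw [h1]
    simp only [hinc]
    rw [← Finset.mul_sum]
    gcongr
  have hfin : ‖p i - p i0‖ ≤ D / 2 * M := by
    have h1 := hvar (i - i0).val
    have h2 : i0 + (((i - i0).val : ℕ) : ZMod N) = i := by
      rw [ZMod.natCast_zmod_val]; ring
    rw [h2] at h1
    refine h1.trans (le_trans ?_ htot)
    refine Finset.sum_le_sum_of_subset_of_nonneg ?_ fun j _ _ => hinc0 _
    exact Finset.range_mono (ZMod.val_lt _).le
  calc ‖p i‖ = ‖p i0 + (p i - p i0)‖ := by congr 1; abel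
    _ ≤ ‖p i0‖ + ‖p i - p i0‖ := norm_add_le _ _
    _ ≤ _ := by gcongr

end

end Helper59.KT
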