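import Mathlib

/-! Project KT (MP_478427_gt): ultralimits of Euler polygons solve the differential equation. -/

namespace Helper59.KT

open Set Filter Topology

variable {E : Type*} [NormedAddCommGroup E] [NormedSpace ℝ E]

lemma incr_le {z f : ℤ → E} {h : ℝ} (hh : 0 ≤ h) (hstep : ∀ k, z (k + 1) - z k = h • f k)
    (w : E) {ε : ℝ} {a b : ℤ} (hab : a ≤ b) (hf : ∀ k, a ≤ k → k < b → ‖f k - w‖ ≤ ε) :
    ‖z b - z a - (((b - a : ℤ) : ℝ) * h) • w‖ ≤ ((b - a : ℤ) : ℝ) * h * ε := by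
  induction b, hab using Int.leInduction with
  | base => simp
  | succ b hab ih =>
    have h1 := ih fun k hk1 hk2 => hf k hk1 (by omega)
    have h2 := hf b hab (by omega)
    have h3 : z (b + 1) - z a - (((b + 1 - a : ℤ) : ℝ) * h) • w =
        (z b - z a - (((b - a : ℤ) : ℝ) * h) • w) + h • (f b - w) := by
      have e1 : z (b + 1) = z b + h • f b := by rw [← hstep b]; abel
      have e2 : (((b + 1 - a : ℤ) : ℝ) * h) = ((b - a : ℤ) : ℝ) * h + h := by push_cast; ring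
      rw [e1, e2, add_smul, smul_sub]; abel
    rw [h3]
    calc ‖(z b - z a - (((b - a : ℤ) : ℝ) * h) • w) + h • (f b - w)‖
        ≤ ‖z b - z a - (((b - a : ℤ) : ℝ) * h) • w‖ + ‖h • (f b - w)‖ := norm_add_le _ _
      _ ≤ ((b - a : ℤ) : ℝ) * h * ε + h * ε := by
          rw [norm_smul, Real.norm_eq_abs, abs_of_nonneg hh]
          gcongr
      _ = ((b + 1 - a : ℤ) : ℝ) * h * ε := by push_cast; ring

lemma incr_bound {z f : ℤ → E} {h : ℝ} (hh : 0 ≤ h) (hstep : ∀ k, z (k + 1) - z k = h • f k)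
    {B : ℝ} (hf : ∀ k, ‖f k‖ ≤ B) (a b : ℤ) :
    ‖z b - z a‖ ≤ |((b - a : ℤ) : ℝ)| * h * B := by
  rcases le_total a b with hab | hab
  · have h1 := incr_le hh hstep 0 hab (fun k _ _ => by simpa using hf k)
    rw [smul_zero, sub_zero] at h1
    rw [abs_of_nonneg (by exact_mod_cast sub_nonneg.mpr hab)]
    exact h1
  · have h1 := incr_le hh hstep 0 hab (fun k _ _ => by simpa using hf k)
    rw [smul_zero, sub_zero, norm_sub_rev] at h1
    have h2 : |((b - a : ℤ) : ℝ)| = ((a - b : ℤ) : ℝ) := by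
      rw [abs_of_nonpos (by exact_mod_cast sub_nonpos.mpr hab)]; push_cast; ring
    rw [h2]
    exact h1

lemma floor_est {h : ℝ} (hh : 0 < h) (s t : ℝ) :
    |((⌊t / h⌋ - ⌊s / h⌋ : ℤ) : ℝ) * h - (t - s)| ≤ h := by
  have h1 := Int.floor_le (t / h)
  have h2 := Int.lt_floor_add_one (t / h)
  have h3 := Int.floor_le (s / h)
  have h4 := Int.lt_floor_add_one (s / h)
  rw [le_div_iff₀ hh] at h1 h3
  rw [div_lt_iff₀ hh] at h2 h4
  rw [abs_le]
  push_cast
  constructor <;> nlinarith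

lemma floor_bound {h : ℝ} (hh : 0 < h) (s t : ℝ) :
    |((⌊t / h⌋ - ⌊s / h⌋ : ℤ) : ℝ)| * h ≤ |t - s| + h := by
  have h1 := floor_est hh s t
  have h2 : |((⌊t / h⌋ - ⌊s / h⌋ : ℤ) : ℝ)| * h = |((⌊t / h⌋ - ⌊s / h⌋ : ℤ) : ℝ) * h| := by
    rw [abs_mul, abs_of_pos hh]
  rw [h2]
  have h3 := abs_sub_abs_le_abs_sub (((⌊t / h⌋ - ⌊s / h⌋ : ℤ) : ℝ) * h) (t - s)
  linarith

/-- Ultralimits of Euler polygons solve the differential equation. -/
theorem ultra_ode [ProperSpace E] {F : E → E} {z f : ℕ → ℤ → E} {h : ℕ → ℝ} {B R : ℝ}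
    (u : Ultrafilter ℕ) (hu : (u : Filter ℕ) ≤ atTop) (hpos : ∀ j, 0 < h j)
    (hlim : Tendsto h atTop (𝓝 0)) (hstep : ∀ j k, z j (k + 1) - z j k = h j • f j k)
    (hB : ∀ j k, ‖f j k‖ ≤ B) (hR : ∀ j, ‖z j 0‖ ≤ R)
    (hcons : ∀ z0, ∀ ε > 0, ∃ δ > 0, ∀ᶠ j in atTop, ∀ k, ‖z j k - z0‖ < δ →
      ‖f j k - F z0‖ ≤ ε) :
    ∃ Z : ℝ → E, (∀ t, Tendsto (fun j => z j ⌊t / h j⌋) u (𝓝 (Z t))) ∧
      ∀ t, HasDerivAt Z (F (Z t)) t := by
  have hB0 : 0 ≤ B := (norm_nonneg _).trans (hB 0 0)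
  have hR0 : 0 ≤ R := (norm_nonneg _).trans (hR 0)
  -- existence of the limit
  have hex : ∀ t : ℝ, ∃ Z : E, Tendsto (fun j => z j ⌊t / h j⌋) u (𝓝 Z) := by
    intro t
    have hK : IsCompact (Metric.closedBall (0 : E) (R + (|t| + 1) * B)) :=
      isCompact_closedBall _ _
    have hmem : ∀ᶠ j in (u : Filter ℕ), z j ⌊t / h j⌋ ∈
        Metric.closedBall (0 : E) (R + (|t| + 1) * B) := by
      have h1 : ∀ᶠ j in atTop, h j < 1 := hlim.eventually (gt_mem_nhds one_pos)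
      filter_upwards [hu h1] with j hj
      rw [mem_closedBall_zero_iff]
      have h2 := incr_bound (hpos j).le (hstep j) (hB j) 0 ⌊t / h j⌋
      have h3 := floor_bound (hpos j) 0 t
      simp only [zero_div, Int.floor_zero, sub_zero] at h2 h3
      have h4 : ‖z j ⌊t / h j⌋‖ ≤ ‖z j 0‖ + ‖z j ⌊t / h j⌋ - z j 0‖ := by
        calc ‖z j ⌊t / h j⌋‖ = ‖z j 0 + (z j ⌊t / h j⌋ - z j 0)‖ := by congr 1; abel
          _ ≤ _ := norm_add_le _ _
      have h5 : |((⌊t / h j⌋ : ℤ) : ℝ)| * h j * B ≤ (|t| + 1) * B := by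
        apply mul_le_mul_of_nonneg_right _ hB0
        linarith
      linarith [hR j]
    obtain ⟨Z, _, hZ⟩ := hK.ultrafilter_le_nhds (u.map fun j => z j ⌊t / h j⌋)
      (le_principal_iff.mpr hmem)
    exact ⟨Z, hZ⟩
  choose Z hZ using hex
  refine ⟨Z, hZ, fun s => ?_⟩
  rw [hasDerivAt_iff_isLittleO, Asymptotics.isLittleO_iff]
  intro ε hε
  obtain ⟨δ, hδ, hcons'⟩ := hcons (Z s) ε hε
  have hρ : 0 < δ / (4 * (B + 1)) := by positivity
  filter_upwards [Metric.ball_mem_nhds s hρ] with t ht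
  rw [Metric.mem_ball, Real.dist_eq] at ht
  have hBt : B * |t - s| ≤ δ / 4 := by
    have h1 : B * |t - s| ≤ (B + 1) * (δ / (4 * (B + 1))) := by
      apply mul_le_mul (by linarith) ht.le (abs_nonneg _) (by positivity)
    have h2 : (B + 1) * (δ / (4 * (B + 1))) = δ / 4 := by field_simp
    linarith
  -- the estimate for the polygons
  have hev : ∀ᶠ j in (u : Filter ℕ), ‖z j ⌊t / h j⌋ - z j ⌊s / h j⌋ -
      (((⌊t / h j⌋ - ⌊s / h j⌋ : ℤ) : ℝ) * h j) • F (Z s)‖ ≤ (|t - s| + h j) * ε := by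
    have h1 : ∀ᶠ j in atTop, h j < δ / (4 * (B + 1)) := hlim.eventually (gt_mem_nhds hρ)
    have h2 : ∀ᶠ j in (u : Filter ℕ), ‖z j ⌊s / h j⌋ - Z s‖ < δ / 4 := by
      have := (hZ s).eventually (Metric.ball_mem_nhds (Z s) (show 0 < δ / 4 by positivity))
      filter_upwards [this] with j hj
      rwa [dist_eq_norm] at hj
    filter_upwards [hu h1, h2, hu hcons'] with j hj1 hj2 hj3
    have hBh : B * h j ≤ δ / 4 := by
      have e1 : B * h j ≤ (B + 1) * (δ / (4 * (B + 1))) := by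
        apply mul_le_mul (by linarith) hj1.le (hpos j).le (by positivity)
      have e2 : (B + 1) * (δ / (4 * (B + 1))) = δ / 4 := by field_simp
      linarith
    have hnear : ∀ k : ℤ, |((k - ⌊s / h j⌋ : ℤ) : ℝ)| * h j ≤ |t - s| + h j →
        ‖f j k - F (Z s)‖ ≤ ε := by
      intro k hk
      apply hj3 k
      have e1 := incr_bound (hpos j).le (hstep j) (hB j) ⌊s / h j⌋ k
      have e2 : |((k - ⌊s / h j⌋ : ℤ) : ℝ)| * h j * B ≤ (|t - s| + h j) * B :=
        mul_le_mul_of_nonneg_right hk hB0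
      calc ‖z j k - Z s‖ = ‖(z j k - z j ⌊s / h j⌋) + (z j ⌊s / h j⌋ - Z s)‖ := by
            congr 1; abel
        _ ≤ ‖z j k - z j ⌊s / h j⌋‖ + ‖z j ⌊s / h j⌋ - Z s‖ := norm_add_le _ _
        _ < δ := by nlinarith
    rcases le_total ⌊s / h j⌋ ⌊t / h j⌋ with hle | hle
    · have e0 := floor_bound (hpos j) s t
      have e1 := incr_le (hpos j).le (hstep j) (F (Z s)) hle (fun k hk1 hk2 => by
        apply hnear k
        refine le_trans ?_ e0
        apply mul_le_mul_of_nonneg_right _ (hpos j).le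
        rw [abs_of_nonneg (by exact_mod_cast sub_nonneg.mpr hk1),
          abs_of_nonneg (by exact_mod_cast sub_nonneg.mpr hle)]
        exact_mod_cast sub_le_sub_right hk2.le _)
      refine e1.trans ?_
      apply mul_le_mul_of_nonneg_right _ hε.le
      rw [abs_of_nonneg (by exact_mod_cast sub_nonneg.mpr hle)] at e0
      exact e0
    · have e0 := floor_bound (hpos j) s t
      have e1 := incr_le (hpos j).le (hstep j) (F (Z s)) hle (fun k hk1 hk2 => by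
        apply hnear k
        refine le_trans ?_ e0
        apply mul_le_mul_of_nonneg_right _ (hpos j).le
        rw [abs_of_nonpos (by exact_mod_cast sub_nonpos.mpr hk2.le),
          abs_of_nonpos (by exact_mod_cast sub_nonpos.mpr hle)]
        apply neg_le_neg
        exact_mod_cast sub_le_sub_right hk1 _)
      have e2 : z j ⌊t / h j⌋ - z j ⌊s / h j⌋ -
          (((⌊t / h j⌋ - ⌊s / h j⌋ : ℤ) : ℝ) * h j) • F (Z s) =
          -(z j ⌊s / h j⌋ - z j ⌊t / h j⌋ -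
          (((⌊s / h j⌋ - ⌊t / h j⌋ : ℤ) : ℝ) * h j) • F (Z s)) := by
        have e3 : (((⌊t / h j⌋ - ⌊s / h j⌋ : ℤ) : ℝ) * h j) =
            -(((⌊s / h j⌋ - ⌊t / h j⌋ : ℤ) : ℝ) * h j) := by push_cast; ring
        rw [e3, neg_smul]; abel
      rw [e2, norm_neg]
      refine e1.trans ?_
      apply mul_le_mul_of_nonneg_right _ hε.le
      rw [abs_of_nonpos (by exact_mod_cast sub_nonpos.mpr hle)] at e0
      have e4 : ((⌊s / h j⌋ - ⌊t / h j⌋ : ℤ) : ℝ) = -((⌊t / h j⌋ - ⌊s / h j⌋ : ℤ) : ℝ) := by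
        push_cast; ring
      rw [e4]
      exact e0
  -- pass to the limit
  have hhu : Tendsto h u (𝓝 0) := hlim.mono_left hu
  have hfl : Tendsto (fun j => ((⌊t / h j⌋ - ⌊s / h j⌋ : ℤ) : ℝ) * h j) u (𝓝 (t - s)) := by
    have h1 : Tendsto (fun j => ((⌊t / h j⌋ - ⌊s / h j⌋ : ℤ) : ℝ) * h j - (t - s)) u (𝓝 0) := by
      refine squeeze_zero_norm (fun j => ?_) hhu
      rw [Real.norm_eq_abs]
      exact floor_est (hpos j) s t
    have h2 := h1.add_const (t - s)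
    simpa using h2
  have hL : Tendsto (fun j => ‖z j ⌊t / h j⌋ - z j ⌊s / h j⌋ -
      (((⌊t / h j⌋ - ⌊s / h j⌋ : ℤ) : ℝ) * h j) • F (Z s)‖) u
      (𝓝 ‖Z t - Z s - (t - s) • F (Z s)‖) :=
    (((hZ t).sub (hZ s)).sub (hfl.smul_const _)).norm
  have hRr : Tendsto (fun j => (|t - s| + h j) * ε) u (𝓝 ((|t - s| + 0) * ε)) :=
    (hhu.const_add _).mul_const _
  have hle := le_of_tendsto_of_tendsto hL hRr hev
  rw [add_zero] at hle
  rw [Real.norm_eq_abs, mul_comm]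
  exact hle

end Helper59.KT
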