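import Pool.Agent.Helper59.KT.Bounds
import Pool.Agent.Helper59.KT.Ultra

/-! Project KT (MP_478427_gt): closed geodesics of bounded energy. -/

set_option maxSynthPendingDepth 3
set_option linter.unusedSectionVars false

namespace Helper59.KT

open Set Filter Topology
open scoped NNReal

variable {V : Type*} [NormedAddCommGroup V] [NormedSpace ℝ V] [FiniteDimensional ℝ V]
variable {L : AddSubgroup V} {K : Set V} {g : V → V →L[ℝ] V →L[ℝ] ℝ}

/-- The velocity as a function of position and momentum. -/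
noncomputable def velo (g : V → V →L[ℝ] V →L[ℝ] ℝ) (z : V × (V →L[ℝ] ℝ)) : V :=
  (g z.1).inverse z.2

lemma IsPerMetric.g_velo (hg : IsPerMetric L g) (z : V × (V →L[ℝ] ℝ)) :
    g z.1 (velo g z) = z.2 := (hg.isInvertible z.1).self_apply_inverse _

lemma IsPerMetric.velo_g (hg : IsPerMetric L g) (x v : V) : velo g (x, g x v) = v :=
  (hg.isInvertible x).inverse_apply_self _

lemma continuous_velo (hg : IsPerMetric L g) : Continuous (velo g) :=
  (hg.continuous_inverse.comp continuous_fst).clm_apply continuous_snd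

lemma contDiff_inverse (hg : IsPerMetric L g) : ContDiff ℝ 1 (fun x => (g x).inverse) := by
  rw [contDiff_iff_contDiffAt]
  intro x
  have h2 : ContDiffAt ℝ 1 ContinuousLinearMap.inverse (g x) :=
    (hg.isInvertible x).contDiffAt_map_inverse
  exact ContDiffAt.comp x h2 hg.smooth.contDiffAt

/-- Conservation of energy. -/
lemma energy_const (hg : IsPerMetric L g) {γ v : ℝ → V}
    (h1 : ∀ t, HasDerivAt γ (v t) t)
    (h2 : ∀ t, HasDerivAt (fun s => g (γ s) (v s)) (force g (γ t) (v t)) t) (t : ℝ) :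
    g (γ t) (v t) (v t) = g (γ 0) (v 0) (v 0) := by
  -- `v` is differentiable
  have hv : ∀ t, DifferentiableAt ℝ v t := by
    intro t
    have e1 : v = fun s => (g (γ s)).inverse (g (γ s) (v s)) := by
      ext1 s; exact ((hg.isInvertible (γ s)).inverse_apply_self _).symm
    have e2 : DifferentiableAt ℝ (fun s => (g (γ s)).inverse) t := by
      have := (contDiff_inverse hg).differentiable one_ne_zero (γ t)
      exact DifferentiableAt.comp t this (h1 t).differentiableAt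
    rw [e1]
    exact e2.clm_apply (h2 t).differentiableAt
  have hder : ∀ t, HasDerivAt (fun s => g (γ s) (v s) (v s)) 0 t := by
    intro t
    obtain ⟨v', hv'⟩ : ∃ v', HasDerivAt v v' t := ⟨_, (hv t).hasDerivAt⟩
    have hg1 : HasDerivAt (fun s => g (γ s)) (fderiv ℝ g (γ t) (v t)) t := by
      have := (hg.smooth.differentiable one_ne_zero (γ t)).hasFDerivAt
      exact this.comp_hasDerivAt t (h1 t)
    have e1 := hg1.clm_apply hv'
    have e2 : force g (γ t) (v t) = fderiv ℝ g (γ t) (v t) (v t) + g (γ t) v' :=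
      (h2 t).unique e1
    have e3 := congrArg (fun f : V →L[ℝ] ℝ => f (v t)) e2
    simp only [add_apply, force_apply] at e3
    have e4 := (h2 t).clm_apply hv'
    refine e4.congr_deriv ?_
    rw [force_apply, hg.symm (γ t) (v t) v']
    linarith
  exact is_const_of_deriv_eq_zero (fun s => (hder s).differentiableAt)
    (fun s => (hder s).deriv) t 0

/-- Sequences of discrete closed geodesics. -/
structure Approx (g : V → V →L[ℝ] V →L[ℝ] ℝ) (T₀ : ℕ) (l : V) (A : ℝ)
    (z f : ℕ → ℤ → V × (V →L[ℝ] ℝ)) (h : ℕ → ℝ) (N : ℕ → ℕ) (B R : ℝ) : Prop where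
  pos : ∀ j, 0 < h j
  lim : Tendsto h atTop (𝓝 0)
  Nh : ∀ j, (N j : ℝ) * h j = T₀
  step : ∀ j k, z j (k + 1) - z j k = h j • f j k
  fb : ∀ j k, ‖f j k‖ ≤ B
  z0 : ∀ j, ‖z j 0‖ ≤ R
  f1 : ∀ j k, (f j k).1 = velo g (z j k)
  f2 : ∀ j k, (f j k).2 = force g (z j (k + 1)).1 (velo g (z j (k + 1)))
  per : ∀ j k, z j (k + N j) = z j k + (l, 0)
  en : ∀ ε > 0, ∀ᶠ j in atTop, ∃ k : ℕ, k ≤ N j ∧ (z j k).2 (velo g (z j k)) ≤
    2 * ((A + ε) / T₀)

/-- Discrete closed geodesics of small energy from closed polygons of small energy. -/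
theorem exists_approx (hK : Cocompact L K) (hg : IsPerMetric L g) {T₀ : ℕ} (hT : 0 < T₀)
    {l : V} (hl : l ∈ L) {A : ℝ}
    (hA : ∀ ε > 0, ∀ᶠ j : ℕ in atTop, ∀ _ : NeZero (T₀ * (j + 1)),
      ∃ y : ZMod (T₀ * (j + 1)) → V, act g (T₀ * (j + 1)) l y * (j + 1) / 2 ≤ A + ε) :
    ∃ z f h N B R, Approx g T₀ l A z f h N B R := by
  obtain ⟨lam, Lam, D, C⟩ := exists_consts hK hg
  have hlam := C.lam_pos
  have hLam := C.Lam_pos
  have hD := C.D_pos
  have hTr : (0 : ℝ) < T₀ := by exact_mod_cast hT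
  obtain ⟨j0, hj0⟩ := eventually_atTop.mp (hA 1 one_pos)
  -- the numbers of steps
  set N : ℕ → ℕ := fun j => T₀ * (j + j0 + 1) with hN
  have hNz : ∀ j, NeZero (N j) := fun j => ⟨by simp only [hN]; positivity⟩
  set h : ℕ → ℝ := fun j => 1 / ((j : ℝ) + j0 + 1) with hh
  have hpos : ∀ j, 0 < h j := fun j => by simp only [hh]; positivity
  have hNh : ∀ j, (N j : ℝ) * h j = T₀ := by
    intro j
    simp only [hN, hh]
    push_cast
    have : (j : ℝ) + j0 + 1 ≠ 0 := by positivity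
    field_simp
  have hlim : Tendsto h atTop (𝓝 0) := by
    have e1 := tendsto_one_div_add_atTop_nhds_zero_nat (𝕜 := ℝ)
    have e2 := (tendsto_add_atTop_iff_nat j0).mpr e1
    refine e2.congr fun j => ?_
    simp only [hh]; push_cast; rfl
  -- the minimisers
  have hmin : ∀ j, ∃ y : ZMod (N j) → V, y 0 ∈ K ∧ ∀ y', act g (N j) l y ≤ act g (N j) l y' := by
    intro j
    obtain ⟨y, hy⟩ := exists_min (N j) l hK hg C
    obtain ⟨l', hl', hx⟩ := hK.cover (y 0)
    refine ⟨fun i => y i + (-l'), ?_, fun y' => ?_⟩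
    · show y 0 + -l' ∈ K
      rw [← sub_eq_add_neg]; exact hx
    · rw [act_shift (N j) l hg y (L.neg_mem hl')]
      exact hy y'
  choose y hy0 hymin using hmin
  have hact : ∀ ε > 0, ∀ᶠ j in atTop, act g (N j) l (y j) / (2 * h j) ≤ A + ε := by
    intro ε hε
    obtain ⟨j1, hj1⟩ := eventually_atTop.mp (hA ε hε)
    filter_upwards [eventually_ge_atTop j1] with j hj
    obtain ⟨y', hy'⟩ := hj1 (j + j0) (by omega) (hNz j)
    have e1 : act g (N j) l (y j) / (2 * h j) ≤ act g (N j) l y' / (2 * h j) := by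
      have := hpos j
      gcongr
      exact hymin j y'
    refine e1.trans ?_
    have e2 : act g (N j) l y' / (2 * h j) = act g (T₀ * (j + j0 + 1)) l y' *
        (((j + j0 : ℕ) : ℝ) + 1) / 2 := by
      show act g (N j) l y' / (2 * (1 / ((j : ℝ) + j0 + 1))) =
        act g (N j) l y' * (((j + j0 : ℕ) : ℝ) + 1) / 2
      have : (j : ℝ) + j0 + 1 ≠ 0 := by positivity
      push_cast
      field_simp
    rw [e2]
    exact hy'
  have hactall : ∀ j, act g (N j) l (y j) / (2 * h j) ≤ A + 1 := by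
    intro j
    obtain ⟨y', hy'⟩ := hj0 (j + j0) (by omega) (hNz j)
    have e1 : act g (N j) l (y j) / (2 * h j) ≤ act g (N j) l y' / (2 * h j) := by
      have := hpos j
      gcongr
      exact hymin j y'
    refine e1.trans ?_
    have e2 : act g (N j) l y' / (2 * h j) = act g (T₀ * (j + j0 + 1)) l y' *
        (((j + j0 : ℕ) : ℝ) + 1) / 2 := by
      show act g (N j) l y' / (2 * (1 / ((j : ℝ) + j0 + 1))) =
        act g (N j) l y' * (((j + j0 : ℕ) : ℝ) + 1) / 2
      have : (j : ℝ) + j0 + 1 ≠ 0 := by positivity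
      push_cast
      field_simp
    rw [e2]
    exact hy'
  -- velocities and momenta on the vertices
  set w : ∀ j, ZMod (N j) → V := fun j i => (h j)⁻¹ • edge (N j) l (y j) i with hw
  set q : ∀ j, ZMod (N j) → V →L[ℝ] ℝ := fun j i => g (vtx (N j) l (y j) i) (w j i) with hq
  have hsumq : ∀ j, ∑ i, h j * (q j i (w j i) / 2) = act g (N j) l (y j) / (2 * h j) := by
    intro j
    have hne := (hpos j).ne'
    unfold act
    rw [Finset.sum_div]
    refine Finset.sum_congr rfl fun i _ => ?_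
    simp only [hq, hw, map_smul, smul_apply, smul_eq_mul]
    field_simp
  set M : ℝ := 2 * (A + 1) / lam with hM
  have hMj : ∀ j, ∑ i, h j * ‖w j i‖ ^ 2 ≤ M := by
    intro j
    have e1 : ∀ i, h j * ‖w j i‖ ^ 2 ≤ 2 / lam * (h j * (q j i (w j i) / 2)) := by
      intro i
      have e2 := C.lam_le (vtx (N j) l (y j) i) (w j i)
      have e3 : 2 / lam * (h j * (q j i (w j i) / 2)) = h j * (q j i (w j i) / lam) := by
        field_simp
      rw [e3]
      have := hpos j
      gcongr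
      rw [le_div_iff₀ hlam, mul_comm]
      exact e2
    calc ∑ i, h j * ‖w j i‖ ^ 2 ≤ ∑ i, 2 / lam * (h j * (q j i (w j i) / 2)) :=
          Finset.sum_le_sum fun i _ => e1 i
      _ = 2 / lam * (act g (N j) l (y j) / (2 * h j)) := by rw [← Finset.mul_sum, hsumq]
      _ ≤ 2 / lam * (A + 1) := by gcongr; exact hactall j
      _ = M := by rw [hM]; ring
  have hM0 : 0 ≤ M :=
    (Finset.sum_nonneg fun i _ => by have := hpos 0; positivity).trans (hMj 0)
  set Bp : ℝ := Lam * Real.sqrt (M / T₀) + D / 2 * M with hBp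
  have hBp0 : 0 ≤ Bp := by positivity
  have hds : ∀ j, DSol g L (N j) l (h j) (xs (N j) l (y j))
      (fun k => w j (k : ZMod (N j))) (fun k => q j (k : ZMod (N j))) :=
    fun j => dsol_of_min (N j) l hg hl (hymin j) (hpos j)
  have hqb : ∀ j i, ‖q j i‖ ≤ Bp := by
    intro j i
    have e1 := bound_p (N j) l C (hpos j) (q j) (w j) (fun i => rfl) (fun i => by
      have e2 := euler (N j) l hg (hymin j) i
      simp only [hq, hw, map_smul]
      rw [force_smul, ← smul_sub, e2, smul_smul]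
      congr 1
      have := (hpos j).ne'
      field_simp) (hMj j) i
    rw [hNh j] at e1
    exact e1
  set Bv : ℝ := Bp / lam with hBv
  have hBv0 : 0 ≤ Bv := by positivity
  have hwb : ∀ j i, ‖w j i‖ ≤ Bv := by
    intro j i
    have e1 := C.lam_norm_le (vtx (N j) l (y j) i) (w j i)
    rw [hBv, le_div_iff₀ hlam, mul_comm]
    exact e1.trans (hqb j i)
  -- the polygons in phase space
  set z : ℕ → ℤ → V × (V →L[ℝ] ℝ) :=
    fun j k => (xs (N j) l (y j) k, q j (k : ZMod (N j))) with hz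
  set f : ℕ → ℤ → V × (V →L[ℝ] ℝ) := fun j k => (w j (k : ZMod (N j)),
    force g (xs (N j) l (y j) (k + 1)) (w j ((k + 1 : ℤ) : ZMod (N j)))) with hf
  set B : ℝ := Bv + D / 2 * Bv ^ 2 with hB
  have hfb : ∀ j k, ‖f j k‖ ≤ B := by
    intro j k
    simp only [hf]
    rw [Prod.norm_def]
    refine max_le ?_ ?_
    · refine (hwb j _).trans ?_
      rw [hB]
      have : 0 ≤ D / 2 * Bv ^ 2 := by positivity
      linarith
    · refine (C.force_le _ _).trans ?_
      have e1 : D / 2 * ‖w j ((k + 1 : ℤ) : ZMod (N j))‖ ^ 2 ≤ D / 2 * Bv ^ 2 := by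
        gcongr
        exact hwb j _
      rw [hB]
      linarith
  have hB0 : 0 ≤ B := (norm_nonneg _).trans (hfb 0 0)
  have hstep : ∀ j k, z j (k + 1) - z j k = h j • f j k := by
    intro j k
    simp only [hz, hf]
    rw [Prod.mk_sub_mk, Prod.smul_mk]
    congr 1
    · exact (hds j).step k
    · exact (hds j).euler k
  obtain ⟨RK, hRK⟩ := hK.compact.isBounded.exists_norm_le
  have hz0 : ∀ j, ‖z j 0‖ ≤ |RK| + Bp := by
    intro j
    simp only [hz]
    rw [Prod.norm_def]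
    refine max_le ?_ ?_
    · have e1 : xs (N j) l (y j) 0 = y j 0 := by simp [xs]
      rw [e1]
      have := (hRK _ (hy0 j)).trans (le_abs_self RK)
      linarith
    · have := hqb j ((0 : ℤ) : ZMod (N j))
      have := abs_nonneg RK
      linarith
  have hwv : ∀ (j : ℕ) (k : ℤ), w j (k : ZMod (N j)) = velo g (z j k) := by
    intro j k
    have e1 : g (xs (N j) l (y j) k) (w j (k : ZMod (N j))) = q j (k : ZMod (N j)) :=
      (hds j).mom k
    simp only [hz]
    rw [← e1, hg.velo_g]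
  refine ⟨z, f, h, N, B, |RK| + Bp, hpos, hlim, hNh, hstep, hfb, hz0, hwv, ?_, ?_, ?_⟩
  · intro j k
    rw [← hwv j (k + 1)]
  · intro j k
    simp only [hz]
    rw [Prod.mk_add_mk, add_zero]
    congr 1
    · exact (hds j).x_per _
    · exact (hds j).p_per _
  · intro ε hε
    filter_upwards [hact ε hε] with j hj
    have e2 : ∃ i, q j i (w j i) ≤ 2 * ((A + ε) / T₀) := by
      by_contra hcon
      push Not at hcon
      have e3 : ∑ i : ZMod (N j), h j * ((A + ε) / T₀) < ∑ i, h j * (q j i (w j i) / 2) := by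
        refine Finset.sum_lt_sum_of_nonempty ⟨0, Finset.mem_univ _⟩ fun i _ => ?_
        have := hcon i
        exact mul_lt_mul_of_pos_left (by linarith) (hpos j)
      rw [Finset.sum_const, Finset.card_univ, ZMod.card, nsmul_eq_mul, hsumq, ← mul_assoc,
        hNh, mul_div_cancel₀ _ hTr.ne'] at e3
      linarith
    obtain ⟨i, hi⟩ := e2
    refine ⟨i.val, (ZMod.val_lt i).le, ?_⟩
    have e4 : (((i.val : ℕ) : ℤ) : ZMod (N j)) = i := by
      push_cast; exact ZMod.natCast_zmod_val i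
    rw [← hwv j (i.val : ℤ)]
    simp only [hz, e4]
    exact hi

lemma Approx.cons (hg : IsPerMetric L g) {T₀ : ℕ} {l : V} {A : ℝ}
    {z f : ℕ → ℤ → V × (V →L[ℝ] ℝ)} {h : ℕ → ℝ} {N : ℕ → ℕ} {B R : ℝ}
    (H : Approx g T₀ l A z f h N B R) (z0 : V × (V →L[ℝ] ℝ)) (ε : ℝ) (hε : ε > 0) :
    ∃ δ > 0, ∀ᶠ j in atTop, ∀ k, ‖z j k - z0‖ < δ →
      ‖f j k - (velo g z0, force g z0.1 (velo g z0))‖ ≤ ε := by
  have hB0 : 0 ≤ B := (norm_nonneg _).trans (H.fb 0 0)
  have c1 : ContinuousAt (velo g) z0 := (continuous_velo hg).continuousAt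
  have c2 : ContinuousAt (fun z : V × (V →L[ℝ] ℝ) => force g z.1 (velo g z)) z0 := by
    have e1 : Continuous (fun z : V × (V →L[ℝ] ℝ) => (z.1, velo g z)) :=
      continuous_fst.prodMk (continuous_velo hg)
    exact ((continuous_force hg).comp e1).continuousAt
  obtain ⟨δ1, hδ1, hc1⟩ := Metric.continuousAt_iff.mp c1 ε hε
  obtain ⟨δ2, hδ2, hc2⟩ := Metric.continuousAt_iff.mp c2 ε hε
  refine ⟨min δ1 (δ2 / 2), by positivity, ?_⟩
  have e1 : ∀ᶠ j in atTop, h j < δ2 / (2 * (B + 1)) :=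
    H.lim.eventually (gt_mem_nhds (by positivity))
  filter_upwards [e1] with j hj k hk
  have hk1 : ‖z j k - z0‖ < δ1 := lt_of_lt_of_le hk (min_le_left _ _)
  have hk2 : ‖z j k - z0‖ < δ2 / 2 := lt_of_lt_of_le hk (min_le_right _ _)
  rw [Prod.norm_def]
  refine max_le ?_ ?_
  · rw [Prod.fst_sub, H.f1 j k, ← dist_eq_norm]
    exact (hc1 (by rw [dist_eq_norm]; exact hk1)).le
  · rw [Prod.snd_sub, H.f2 j k, ← dist_eq_norm]
    have e2 : ‖z j (k + 1) - z0‖ < δ2 := by
      calc ‖z j (k + 1) - z0‖ = ‖(z j (k + 1) - z j k) + (z j k - z0)‖ := by congr 1; abel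
        _ ≤ ‖z j (k + 1) - z j k‖ + ‖z j k - z0‖ := norm_add_le _ _
        _ = h j * ‖f j k‖ + ‖z j k - z0‖ := by
            rw [H.step, norm_smul, Real.norm_eq_abs, abs_of_pos (H.pos j)]
        _ ≤ h j * (B + 1) + ‖z j k - z0‖ := by
            have := H.pos j
            have := H.fb j k
            gcongr
            linarith
        _ < δ2 / (2 * (B + 1)) * (B + 1) + δ2 / 2 := by
            have : h j * (B + 1) < δ2 / (2 * (B + 1)) * (B + 1) :=
              mul_lt_mul_of_pos_right hj (by linarith)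
            linarith
        _ = δ2 := by field_simp; ring
    exact (hc2 (by rw [dist_eq_norm]; exact e2)).le

/-- Energy of the limit. -/
lemma Approx.energy (hg : IsPerMetric L g) {T₀ : ℕ} {l : V} {A : ℝ}
    {z f : ℕ → ℤ → V × (V →L[ℝ] ℝ)} {h : ℕ → ℝ} {N : ℕ → ℕ} {B R : ℝ}
    (H : Approx g T₀ l A z f h N B R) (u : Ultrafilter ℕ) (hule : (u : Filter ℕ) ≤ atTop)
    {Z : ℝ → V × (V →L[ℝ] ℝ)} (hZ : ∀ t, Tendsto (fun j => z j ⌊t / h j⌋) u (𝓝 (Z t)))
    {ε : ℝ} (hε : 0 < ε) : ∃ t, (Z t).2 (velo g (Z t)) ≤ 2 * ((A + ε) / T₀) := by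
  have hB0 : 0 ≤ B := (norm_nonneg _).trans (H.fb 0 0)
  have hHc : Continuous (fun z : V × (V →L[ℝ] ℝ) => z.2 (velo g z)) :=
    continuous_snd.clm_apply (continuous_velo hg)
  obtain ⟨j1, hj1⟩ := eventually_atTop.mp (H.en ε hε)
  have e2 : ∀ j, ∃ k : ℕ, k ≤ N j ∧ (j1 ≤ j → (z j k).2 (velo g (z j k)) ≤
      2 * ((A + ε) / T₀)) := by
    intro j
    by_cases hj : j1 ≤ j
    · obtain ⟨k, hk1, hk2⟩ := hj1 j hj
      exact ⟨k, hk1, fun _ => hk2⟩
    · exact ⟨0, Nat.zero_le _, fun h => absurd h hj⟩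
  choose κ hκ1 hκ2 using e2
  have hmem : ∀ j, (κ j : ℝ) * h j ∈ Icc (0 : ℝ) T₀ := by
    intro j
    have := H.pos j
    refine ⟨by positivity, ?_⟩
    rw [← H.Nh j]
    have : (κ j : ℝ) ≤ N j := by exact_mod_cast hκ1 j
    gcongr
  obtain ⟨t, -, ht⟩ := (isCompact_Icc (a := (0 : ℝ)) (b := T₀)).ultrafilter_le_nhds
    (u.map fun j => (κ j : ℝ) * h j) (le_principal_iff.mpr
      (show (fun j => (κ j : ℝ) * h j) ⁻¹' Icc (0 : ℝ) T₀ ∈ (u : Filter ℕ) from
        Filter.univ_mem' hmem))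
  have ht' : Tendsto (fun j => (κ j : ℝ) * h j) u (𝓝 t) := ht
  refine ⟨t, ?_⟩
  have hzκ : Tendsto (fun j => z j (κ j)) u (𝓝 (Z t)) := by
    have e3 : Tendsto (fun j => z j (κ j) - z j ⌊t / h j⌋) u (𝓝 0) := by
      have e4 : Tendsto (fun j => (|(κ j : ℝ) * h j - t| + h j) * B) u (𝓝 ((|t - t| + 0) * B)) :=
        (((ht'.sub_const t).abs).add (H.lim.mono_left hule)).mul_const B
      rw [sub_self, abs_zero, add_zero, zero_mul] at e4
      refine squeeze_zero_norm (fun j => ?_) e4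
      have e5 := incr_bound (H.pos j).le (H.step j) (H.fb j) ⌊t / h j⌋ (κ j)
      have e6 := floor_bound (H.pos j) t ((κ j : ℝ) * h j)
      rw [mul_div_cancel_right₀ _ (H.pos j).ne', Int.floor_natCast] at e6
      exact e5.trans (mul_le_mul_of_nonneg_right e6 hB0)
    have e7 := e3.add (hZ t)
    simpa using e7
  have e8 : Tendsto (fun j => (z j (κ j)).2 (velo g (z j (κ j)))) u
      (𝓝 ((Z t).2 (velo g (Z t)))) := (hHc.tendsto (Z t)).comp hzκ
  refine le_of_tendsto e8 ?_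
  filter_upwards [hule (eventually_ge_atTop j1)] with j hj using hκ2 j hj

/-- Closed geodesics of small energy from closed polygons of small energy. -/
theorem exists_closed (hK : Cocompact L K) (hg : IsPerMetric L g) {T₀ : ℕ} (hT : 0 < T₀)
    {l : V} (hl : l ∈ L) {A : ℝ}
    (hA : ∀ ε > 0, ∀ᶠ j : ℕ in atTop, ∀ _ : NeZero (T₀ * (j + 1)),
      ∃ y : ZMod (T₀ * (j + 1)) → V, act g (T₀ * (j + 1)) l y * (j + 1) / 2 ≤ A + ε) :
    ∃ (γ v : ℝ → V) (En : ℝ), (∀ t, HasDerivAt γ (v t) t) ∧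
      (∀ t, HasDerivAt (fun s => g (γ s) (v s)) (force g (γ t) (v t)) t) ∧
      (∀ t, γ (t + T₀) = γ t + l) ∧ (∀ t, g (γ t) (v t) (v t) = 2 * En) ∧ En * T₀ ≤ A := by
  have hTr : (0 : ℝ) < T₀ := by exact_mod_cast hT
  obtain ⟨z, f, h, N, B, R, H⟩ := exists_approx hK hg hT hl hA
  set u : Ultrafilter ℕ := Ultrafilter.of atTop with hu
  have hule : (u : Filter ℕ) ≤ atTop := Ultrafilter.of_le atTop
  obtain ⟨Z, hZ, hZd⟩ := ultra_ode (F := fun z => (velo g z, force g z.1 (velo g z))) u hule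
    H.pos H.lim H.step H.fb H.z0 (H.cons hg)
  have hγ : ∀ t, HasDerivAt (fun s => (Z s).1) (velo g (Z t)) t := fun t => (hZd t).fst
  have hP : ∀ t, HasDerivAt (fun s => (Z s).2) (force g (Z t).1 (velo g (Z t))) t :=
    fun t => (hZd t).snd
  have hPm : (fun s => g (Z s).1 (velo g (Z s))) = fun s => (Z s).2 :=
    funext fun s => hg.g_velo (Z s)
  have hP' : ∀ t, HasDerivAt (fun s => g (Z s).1 (velo g (Z s)))
      (force g (Z t).1 (velo g (Z t))) t := by
    rw [hPm]
    exact hP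
  have hen := fun t => energy_const hg hγ hP' t
  have henle : ∀ ε > 0, g (Z 0).1 (velo g (Z 0)) (velo g (Z 0)) ≤ 2 * ((A + ε) / T₀) := by
    intro ε hε
    obtain ⟨t, ht⟩ := H.energy hg u hule hZ hε
    rw [← congrFun hPm t, hen t] at ht
    exact ht
  refine ⟨fun t => (Z t).1, fun t => velo g (Z t), g (Z 0).1 (velo g (Z 0)) (velo g (Z 0)) / 2,
    hγ, hP', ?_, ?_, ?_⟩
  · intro t
    have e1 : ∀ j, z j ⌊(t + T₀) / h j⌋ = z j ⌊t / h j⌋ + (l, 0) := by
      intro j
      have e2 : (t + T₀) / h j = t / h j + (N j : ℕ) := by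
        rw [add_div, ← H.Nh j, mul_div_cancel_right₀ _ (H.pos j).ne']
      rw [e2, Int.floor_add_natCast]
      exact H.per j _
    have e3 : Tendsto (fun j => z j ⌊(t + T₀) / h j⌋) u (𝓝 (Z t + (l, 0))) := by
      have e5 : (fun j => z j ⌊(t + T₀) / h j⌋) = fun j => z j ⌊t / h j⌋ + (l, 0) := funext e1
      rw [e5]
      exact (hZ t).add_const _
    have e4 : Z (t + T₀) = Z t + (l, 0) := tendsto_nhds_unique (hZ (t + T₀)) e3
    show (Z (t + T₀)).1 = (Z t).1 + l
    rw [e4]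
    rfl
  · intro t
    have e1 := hen t
    show g (Z t).1 (velo g (Z t)) (velo g (Z t)) = _
    rw [e1]; ring
  · have e1 : ∀ ε > 0, g (Z 0).1 (velo g (Z 0)) (velo g (Z 0)) / 2 * T₀ ≤ A + ε := by
      intro ε hε
      have e2 := henle ε hε
      have e3 : g (Z 0).1 (velo g (Z 0)) (velo g (Z 0)) / 2 ≤ (A + ε) / T₀ := by linarith
      rwa [le_div_iff₀ hTr] at e3
    exact le_of_forall_pos_le_add e1

end Helper59.KT
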