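import Pool.Agent.Helper59.TG.Torus

/-! Project KT (MP_478427_gt): the definitions of the statement, in coordinates. -/

namespace Helper59.Torus

open Set

/-- The constant vector field `ω` is the `g`-gradient of `S`, it has constant length, and `S` has
the periods `P`: the lines of direction `ω` are the geodesics of an invariant Lagrangian graph. -/
structure IsLinearGraph {n : ℕ} (g : Vec n → Fin n → Fin n → ℝ) (ω : Vec n) (S : Vec n → ℝ)
    (P : Vec n) (E : ℝ) : Prop where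
  differentiable : Differentiable ℝ S
  periods : ∀ x m, S (x + intVec m) = S x + ∑ i, P i * m i
  gradient : ∀ x i, ∑ j, g x i j * ω j = pd S i x
  energy : ∀ x, ∑ i, ∑ j, g x i j * ω i * ω j = E

/-- The bounds `a² |v|² ≤ g (v, v) ≤ b² |v|²`. -/
def Bounds {n : ℕ} (g : Vec n → Fin n → Fin n → ℝ) (a b : ℝ) : Prop :=
  ∀ x (v : Vec n), a ^ 2 * ∑ i, v i ^ 2 ≤ ∑ i, ∑ j, g x i j * v i * v j ∧
    ∑ i, ∑ j, g x i j * v i * v j ≤ b ^ 2 * ∑ i, v i ^ 2

/-- Any two integral linear relations between the coordinates of `ω` are dependent. -/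
def AtMostOneRelation {n : ℕ} (ω : Vec n) : Prop :=
  ∀ k k' : Fin n → ℤ, ∑ i, k i * ω i = 0 → ∑ i, k' i * ω i = 0 →
    ∃ a b : ℤ, (a ≠ 0 ∨ b ≠ 0) ∧ ∀ i, a * k i = b * k' i

/-- The curve `γ` in the torus comes closer than `ε` to the point `x`. -/
def Approaches {n : ℕ} (γ : ℝ → Vec n) (x : Vec n) (ε : ℝ) : Prop :=
  ∃ (t : ℝ) (m : Fin n → ℤ), ∀ i, |γ t i + m i - x i| < ε

end Helper59.Torus
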