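import Pool.Agent.Helper59.KT.Tori

/-! Project KT (MP_478427_gt): a single closed geodesic near every point. -/

set_option maxSynthPendingDepth 3
set_option linter.unusedSectionVars false

namespace Helper59.Torus

open Set Filter Topology Helper59.KT

variable {n : ℕ} {g : Vec n → Fin n → Fin n → ℝ}

/-- The integral relations are the multiples of one of them. -/
lemma exists_gen {ω : Vec n} (h : AtMostOneRelation ω) :
    ∃ k₀ : Fin n → ℤ, ∑ i, k₀ i * ω i = 0 ∧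
      ∀ k : Fin n → ℤ, ∑ i, k i * ω i = 0 → ∃ j : ℤ, ∀ i, k i = j * k₀ i := by
  by_cases hall : ∀ k : Fin n → ℤ, ∑ i, k i * ω i = 0 → k = 0
  · refine ⟨0, by simp, fun k hk => ⟨0, fun i => ?_⟩⟩
    rw [hall k hk]; simp
  · push Not at hall
    obtain ⟨k₁, hk₁, hne⟩ := hall
    obtain ⟨i₀, hi₀⟩ : ∃ i, k₁ i ≠ 0 := by
      by_contra hcon
      push Not at hcon
      exact hne (funext hcon)
    set Q : AddSubgroup ℤ :=
      { carrier := {c | ∃ k : Fin n → ℤ, ∑ i, k i * ω i = 0 ∧ k i₀ = c}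
        zero_mem' := ⟨0, by simp, rfl⟩
        add_mem' := by
          rintro _ _ ⟨k, hk, rfl⟩ ⟨k', hk', rfl⟩
          refine ⟨k + k', ?_, rfl⟩
          simp only [Pi.add_apply, Int.cast_add, add_mul, Finset.sum_add_distrib, hk, hk', add_zero]
        neg_mem' := by
          rintro _ ⟨k, hk, rfl⟩
          refine ⟨-k, ?_, rfl⟩
          simp only [Pi.neg_apply, Int.cast_neg, neg_mul, Finset.sum_neg_distrib, hk, neg_zero] }
      with hQ
    obtain ⟨c, hc⟩ := Int.subgroup_cyclic Q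
    have hcQ : c ∈ Q := by rw [hc]; exact AddSubgroup.subset_closure rfl
    obtain ⟨k₀, hk₀, hk₀c⟩ := hcQ
    refine ⟨k₀, hk₀, fun k hk => ?_⟩
    have h1 : k i₀ ∈ Q := ⟨k, hk, rfl⟩
    rw [hc, AddSubgroup.mem_closure_singleton] at h1
    obtain ⟨j, hj⟩ := h1
    refine ⟨j, ?_⟩
    have h2 : ∑ i, ((fun i => k i - j * k₀ i : Fin n → ℤ) i : ℝ) * ω i = 0 := by
      have e1 : ∑ i, ((fun i => k i - j * k₀ i : Fin n → ℤ) i : ℝ) * ω i =
          ∑ i, k i * ω i - j * ∑ i, k₀ i * ω i := by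
        rw [Finset.mul_sum, ← Finset.sum_sub_distrib]
        refine Finset.sum_congr rfl fun i _ => ?_
        push_cast; ring
      rw [e1, hk, hk₀]; ring
    obtain ⟨a, b, hab, h3⟩ := h _ k₁ h2 hk₁
    have h4 := h3 i₀
    have h5 : k i₀ - j * k₀ i₀ = 0 := by
      rw [hk₀c, ← hj]; simp
    rw [h5, mul_zero] at h4
    have hb : b = 0 := by
      rcases mul_eq_zero.mp h4.symm with h6 | h6
      · exact h6
      · exact absurd h6 hi₀
    have ha : a ≠ 0 := by
      rcases hab with h6 | h6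
      · exact h6
      · exact absurd hb h6
    intro i
    have h7 := h3 i
    simp only [hb, zero_mul] at h7
    rcases mul_eq_zero.mp h7 with h8 | h8
    · exact absurd h8 ha
    · linarith

/-- Kronecker's theorem, uniformly. -/
lemma uniform_kronecker {ω : Vec n} {k₀ : Fin n → ℤ}
    (hgen : ∀ k : Fin n → ℤ, ∑ i, k i * ω i = 0 → ∃ j : ℤ, ∀ i, k i = j * k₀ i)
    {ε : ℝ} (hε : 0 < ε) :
    ∃ R : ℝ, 0 < R ∧ ∀ y : Vec n, (∃ j : ℤ, ∑ i, k₀ i * y i = j) →
      ∃ (s : ℝ) (m : Fin n → ℤ), |s| ≤ R ∧ ∀ i, |s * ω i + m i - y i| < ε := by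
  have hkr : ∀ y : Vec n, (∃ j : ℤ, ∑ i, k₀ i * y i = j) →
      ∃ (s : ℝ) (m : Fin n → ℤ), ∀ i, |s * ω i + m i - y i| < ε := by
    rintro y ⟨j, hj⟩
    refine kronecker (fun k hk => ?_) hε
    obtain ⟨q, hq⟩ := hgen k hk
    refine ⟨q * j, ?_⟩
    push_cast
    rw [← hj, Finset.mul_sum]
    refine Finset.sum_congr rfl fun i _ => ?_
    rw [hq i]; push_cast; ring
  set Q : Set (Vec n) := Icc 0 1 ∩ {y | ∃ j : ℤ, ∑ i, k₀ i * y i = j} with hQ
  have hQc : IsCompact Q := by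
    refine isCompact_Icc.inter_right ?_
    have h1 : {y : Vec n | ∃ j : ℤ, ∑ i, k₀ i * y i = j} =
        (fun y : Vec n => ∑ i, (k₀ i : ℝ) * y i) ⁻¹' (range ((↑) : ℤ → ℝ)) := by
      ext y
      simp only [mem_ofPred_eq, mem_preimage, mem_range]
      exact ⟨fun ⟨j, hj⟩ => ⟨j, hj.symm⟩, fun ⟨j, hj⟩ => ⟨j, hj.symm⟩⟩
    rw [h1]
    refine IsClosed.preimage ?_ Int.isClosedEmbedding_coe_real.isClosed_range
    exact continuous_finsetSum _ fun i _ => continuous_const.mul (continuous_apply i)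
  set U : ℕ → Set (Vec n) := fun N => {y | ∃ (s : ℝ) (m : Fin n → ℤ), |s| ≤ N ∧
    ∀ i, |s * ω i + m i - y i| < ε} with hU
  have hUo : ∀ N, IsOpen (U N) := by
    intro N
    have h1 : U N = ⋃ (s : ℝ) (_ : |s| ≤ N) (m : Fin n → ℤ),
        {y : Vec n | ∀ i, |s * ω i + m i - y i| < ε} := by
      ext y
      simp only [hU, mem_ofPred_eq, mem_iUnion]
      constructor
      · rintro ⟨s, m, h2, h3⟩; exact ⟨s, h2, m, h3⟩
      · rintro ⟨s, h2, m, h3⟩; exact ⟨s, m, h2, h3⟩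
    rw [h1]
    refine isOpen_iUnion fun s => isOpen_iUnion fun _ => isOpen_iUnion fun m => ?_
    have h2 : {y : Vec n | ∀ i, |s * ω i + m i - y i| < ε} =
        ⋂ i, {y : Vec n | |s * ω i + m i - y i| < ε} := by
      ext y; simp
    rw [h2]
    refine isOpen_iInter_of_finite fun i => ?_
    refine isOpen_lt ?_ continuous_const
    exact (continuous_const.sub (continuous_apply i)).abs
  obtain ⟨N, hN⟩ := hQc.elim_directed_cover U hUo (by
    rintro y ⟨_, hy⟩
    obtain ⟨s, m, hm⟩ := hkr y hy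
    obtain ⟨N, hN⟩ := exists_nat_ge |s|
    exact mem_iUnion.mpr ⟨N, s, m, hN, hm⟩) (by
    apply directed_of_isDirected_le
    intro N N' hNN y
    rintro ⟨s, m, h1, h2⟩
    exact ⟨s, m, h1.trans (by exact_mod_cast hNN), h2⟩)
  refine ⟨N + 1, by positivity, ?_⟩
  rintro y ⟨j, hj⟩
  have h1 : (fun i => y i - ⌊y i⌋ : Vec n) ∈ Q := by
    refine ⟨⟨fun i => ?_, fun i => ?_⟩, j - ∑ i, k₀ i * ⌊y i⌋, ?_⟩
    · simp only [Pi.zero_apply]
      linarith [Int.floor_le (y i)]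
    · simp only [Pi.one_apply]
      linarith [Int.lt_floor_add_one (y i)]
    · push_cast
      rw [← hj, ← Finset.sum_sub_distrib]
      refine Finset.sum_congr rfl fun i _ => ?_
      ring
  obtain ⟨s, m, h2, h3⟩ := hN h1
  refine ⟨s, fun i => m i + ⌊y i⌋, by linarith, fun i => ?_⟩
  have h4 := h3 i
  simp only at h4
  push_cast
  have h5 : s * ω i + ((m i : ℝ) + (⌊y i⌋ : ℝ)) - y i = s * ω i + m i - (y i - ⌊y i⌋) := by ring
  rw [h5]
  exact h4

/-- Bounds for a metric. -/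
lemma exists_bounds (hg : IsMetric g) : ∃ a b : ℝ, 0 < a ∧ 0 < b ∧ Bounds g a b := by
  obtain ⟨lam, Lam, D, C⟩ := exists_consts (cocompact (n := n)) (perMetric hg)
  have hl := C.lam_pos
  have hL := C.Lam_pos
  refine ⟨Real.sqrt (lam / (n + 1)), Real.sqrt Lam, by positivity, by positivity, fun x v => ?_⟩
  rw [Real.sq_sqrt (by positivity), Real.sq_sqrt hL.le]
  have h1 := C.lam_le x v
  have h2 := C.g_le x v v
  rw [toC_apply] at h1 h2
  have h3 : ∑ i, v i ^ 2 ≤ (n + 1) * ‖v‖ ^ 2 := by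
    have e1 : ∑ i, v i ^ 2 ≤ ∑ _i : Fin n, ‖v‖ ^ 2 := by
      refine Finset.sum_le_sum fun i _ => ?_
      rw [← sq_abs (v i)]
      exact pow_le_pow_left₀ (abs_nonneg _) (norm_le_pi_norm v i) 2
    rw [Finset.sum_const, Finset.card_univ, Fintype.card_fin, nsmul_eq_mul] at e1
    nlinarith [sq_nonneg ‖v‖]
  have h4 : ‖v‖ ^ 2 ≤ ∑ i, v i ^ 2 := by
    have e0 : 0 ≤ ∑ i, v i ^ 2 := Finset.sum_nonneg fun i _ => sq_nonneg _
    have e1 : ‖v‖ ≤ Real.sqrt (∑ i, v i ^ 2) := by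
      rw [pi_norm_le_iff_of_nonneg (Real.sqrt_nonneg _)]
      intro i
      rw [Real.norm_eq_abs]
      apply Real.abs_le_sqrt
      exact Finset.single_le_sum (f := fun i => v i ^ 2) (fun i _ => sq_nonneg _)
        (Finset.mem_univ i)
    calc ‖v‖ ^ 2 ≤ (Real.sqrt (∑ i, v i ^ 2)) ^ 2 := pow_le_pow_left₀ (norm_nonneg _) e1 2
      _ = _ := Real.sq_sqrt e0
  constructor
  · calc lam / (n + 1) * ∑ i, v i ^ 2 ≤ lam / (n + 1) * ((n + 1) * ‖v‖ ^ 2) := by gcongr
      _ = lam * ‖v‖ ^ 2 := by field_simp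
      _ ≤ _ := h1
  · calc _ ≤ Lam * ‖v‖ * ‖v‖ := (le_abs_self _).trans h2
      _ = Lam * ‖v‖ ^ 2 := by ring
      _ ≤ _ := by gcongr

/-- One closed geodesic near every point. -/
theorem dense_of (hg : IsMetric g) {ω : Vec n} (hω0 : ω ≠ 0) {S : Vec n → ℝ} {P : Vec n} {E : ℝ}
    (H : IsLinearGraph g ω S P E) (hrel : AtMostOneRelation ω) {ε : ℝ} (hε : 0 < ε) :
    ∃ γ v : ℝ → Vec n, IsClosedGeodesic g γ v ∧ ∀ x, Approaches γ x ε := by
  obtain ⟨a, b, ha, hb, hab⟩ := exists_bounds hg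
  obtain ⟨k₀, hk₀, hgen⟩ := exists_gen hrel
  obtain ⟨R, hR, hkr⟩ := uniform_kronecker hgen (half_pos hε)
  obtain ⟨i₁, hi₁⟩ : ∃ i, ω i ≠ 0 := by
    by_contra hcon
    push Not at hcon
    exact hω0 (funext hcon)
  have hi₁' : 0 < |ω i₁| := abs_pos.mpr hi₁
  set N : ℤ := ∑ i, |k₀ i| + 1 with hN
  have hN1 : 1 ≤ N := by
    have : 0 ≤ ∑ i, |k₀ i| := Finset.sum_nonneg fun i _ => abs_nonneg _
    omega
  have hkN : ∀ i, |k₀ i| ≤ N := by
    intro i
    have := Finset.single_le_sum (f := fun i => |k₀ i|) (fun i _ => abs_nonneg _)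
      (Finset.mem_univ i)
    omega
  set D₀ : ℝ := 1 + (N : ℝ) ^ 2 with hD₀
  have hD₀p : 0 < D₀ := by positivity
  set B : ℝ := (b / a) ^ 2 * (n * D₀ ^ 2) with hB
  have hB0 : 0 ≤ B := by positivity
  -- the period
  set T : ℝ := 2 * R + (D₀ + 1) / |ω i₁| + 8 * B * R / ε ^ 2 + 1 with hT
  have hT1 : 2 * R ≤ T := by
    rw [hT]
    have h1 : 0 ≤ (D₀ + 1) / |ω i₁| := by positivity
    have h2 : 0 ≤ 8 * B * R / ε ^ 2 := by positivity
    linarith
  have hT0 : 0 < T := by linarith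
  have hT2 : D₀ + 1 ≤ T * |ω i₁| := by
    have h1 : (D₀ + 1) / |ω i₁| ≤ T := by
      rw [hT]
      have h2 : 0 ≤ 8 * B * R / ε ^ 2 := by positivity
      linarith
    rwa [div_le_iff₀ hi₁'] at h1
  have hT3 : 8 * B * R < T * ε ^ 2 := by
    have h1 : 8 * B * R / ε ^ 2 < T := by
      rw [hT]
      have h2 : 0 ≤ (D₀ + 1) / |ω i₁| := by positivity
      linarith
    rwa [div_lt_iff₀ (by positivity)] at h1
  set m : Fin n → ℤ := fun i => ⌊T * ω i⌋ + N * k₀ i with hm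
  have hmd : ∀ i, |(m i : ℝ) - T * ω i| ≤ D₀ := by
    intro i
    simp only [hm]
    push_cast
    have h1 : |(⌊T * ω i⌋ : ℝ) - T * ω i| ≤ 1 := by
      rw [abs_le]
      constructor
      · linarith [Int.lt_floor_add_one (T * ω i)]
      · linarith [Int.floor_le (T * ω i)]
    have h2 : |(N : ℝ) * k₀ i| ≤ (N : ℝ) ^ 2 := by
      have e1 : ((|k₀ i| : ℤ) : ℝ) ≤ N := by exact_mod_cast hkN i
      rw [Int.cast_abs] at e1
      have e2 : (0 : ℝ) ≤ N := by exact_mod_cast (by omega : (0 : ℤ) ≤ N)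
      rw [abs_mul, abs_of_nonneg e2, sq]
      gcongr
    calc |(⌊T * ω i⌋ : ℝ) + N * k₀ i - T * ω i| = |((⌊T * ω i⌋ : ℝ) - T * ω i) + N * k₀ i| := by
          congr 1; ring
      _ ≤ |(⌊T * ω i⌋ : ℝ) - T * ω i| + |(N : ℝ) * k₀ i| := abs_add_le _ _
      _ ≤ D₀ := by rw [hD₀]; linarith
  have hm0 : m ≠ 0 := by
    intro h
    have h1 := hmd i₁
    rw [h] at h1
    simp only [Pi.zero_apply, Int.cast_zero, zero_sub, abs_neg] at h1
    rw [abs_mul, abs_of_pos hT0] at h1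
    linarith
  obtain ⟨γ, v, hgeo, hv0, hper, hest⟩ := estimate hg H ha hab m T
  have hsum : ∑ i, ((m i : ℝ) - T * ω i) ^ 2 ≤ n * D₀ ^ 2 := by
    have e1 : ∑ i, ((m i : ℝ) - T * ω i) ^ 2 ≤ ∑ _i : Fin n, D₀ ^ 2 := by
      refine Finset.sum_le_sum fun i _ => ?_
      rw [← sq_abs]
      exact pow_le_pow_left₀ (abs_nonneg _) (hmd i) 2
    rwa [Finset.sum_const, Finset.card_univ, Fintype.card_fin, nsmul_eq_mul] at e1
  refine ⟨γ, v, ⟨hgeo, hv0 hm0, 1, one_pos, m, hper⟩, fun x => ?_⟩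
  -- the transversal coordinate
  have hcont : Continuous γ :=
    continuous_pi fun i => continuous_iff_continuousAt.mpr fun t => (hgeo.1 t i).continuousAt
  set f : ℝ → ℝ := fun t => ∑ i, (k₀ i : ℝ) * γ t i with hf
  have hfc : Continuous f := continuous_finsetSum _ fun i _ =>
    continuous_const.mul ((continuous_apply i).comp hcont)
  obtain ⟨t₀, ht₀, j, hj⟩ : ∃ t₀ ∈ Icc (0 : ℝ) 1, ∃ j : ℤ,
      f t₀ = ∑ i, (k₀ i : ℝ) * x i + j := by
    by_cases hk0 : k₀ = 0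
    · refine ⟨0, ⟨le_rfl, zero_le_one⟩, 0, ?_⟩
      simp [hf, hk0]
    · have h1 : f 0 + 1 ≤ f 1 := by
        have e1 : f 1 = f 0 + ∑ i, (k₀ i : ℝ) * m i := by
          have e2 := hper 0
          rw [zero_add] at e2
          simp only [hf, e2, Pi.add_apply, intVec, mul_add, Finset.sum_add_distrib]
        have e3 : (1 : ℝ) ≤ ∑ i, (k₀ i : ℝ) * m i := by
          have e4 : ∑ i, (k₀ i : ℝ) * m i = ∑ i, (k₀ i : ℝ) * ((⌊T * ω i⌋ : ℝ) - T * ω i) +
              N * ∑ i, (k₀ i : ℝ) ^ 2 := by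
            have e5 : ∑ i, (k₀ i : ℝ) * ((⌊T * ω i⌋ : ℝ) - T * ω i) =
                ∑ i, (k₀ i : ℝ) * (⌊T * ω i⌋ : ℝ) - T * ∑ i, k₀ i * ω i := by
              rw [Finset.mul_sum, ← Finset.sum_sub_distrib]
              refine Finset.sum_congr rfl fun i _ => ?_
              ring
            rw [e5, hk₀, mul_zero, sub_zero, Finset.mul_sum, ← Finset.sum_add_distrib]
            refine Finset.sum_congr rfl fun i _ => ?_
            simp only [hm]
            push_cast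
            ring
          have e6 : -(∑ i, ((|k₀ i| : ℤ) : ℝ)) ≤
              ∑ i, (k₀ i : ℝ) * ((⌊T * ω i⌋ : ℝ) - T * ω i) := by
            rw [← Finset.sum_neg_distrib]
            refine Finset.sum_le_sum fun i _ => ?_
            have e7 : |(k₀ i : ℝ) * ((⌊T * ω i⌋ : ℝ) - T * ω i)| ≤ |(k₀ i : ℝ)| * 1 := by
              rw [abs_mul]
              gcongr
              rw [abs_le]
              constructor
              · linarith [Int.lt_floor_add_one (T * ω i)]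
              · linarith [Int.floor_le (T * ω i)]
            have e8 := (abs_le.mp e7).1
            rw [Int.cast_abs]
            linarith
          have e9 : (1 : ℝ) ≤ ∑ i, (k₀ i : ℝ) ^ 2 := by
            obtain ⟨i₂, hi₂⟩ : ∃ i, k₀ i ≠ 0 := by
              by_contra hcon
              push Not at hcon
              exact hk0 (funext hcon)
            have e10 : (1 : ℝ) ≤ (k₀ i₂ : ℝ) ^ 2 := by
              have : (1 : ℤ) ≤ k₀ i₂ ^ 2 := by
                have := sq_nonneg (k₀ i₂)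
                have h2 : k₀ i₂ ^ 2 ≠ 0 := pow_ne_zero 2 hi₂
                omega
              exact_mod_cast this
            exact e10.trans (Finset.single_le_sum (f := fun i => (k₀ i : ℝ) ^ 2)
              (fun i _ => sq_nonneg _) (Finset.mem_univ i₂))
          have e11 : (N : ℝ) = ∑ i, ((|k₀ i| : ℤ) : ℝ) + 1 := by
            rw [hN]; push_cast; rfl
          have e12 : (0 : ℝ) ≤ ∑ i, ((|k₀ i| : ℤ) : ℝ) :=
            Finset.sum_nonneg fun i _ => by exact_mod_cast abs_nonneg _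
          rw [e4]
          nlinarith
        linarith
      set j : ℤ := ⌈f 0 - ∑ i, (k₀ i : ℝ) * x i⌉ with hj
      have h2 : ∑ i, (k₀ i : ℝ) * x i + j ∈ Icc (f 0) (f 1) := by
        have e1 := Int.le_ceil (f 0 - ∑ i, (k₀ i : ℝ) * x i)
        have e2 := Int.ceil_lt_add_one (f 0 - ∑ i, (k₀ i : ℝ) * x i)
        constructor
        · rw [hj]; linarith
        · rw [hj]; linarith
      obtain ⟨t₀, ht₀, he⟩ := intermediate_value_Icc zero_le_one hfc.continuousOn h2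
      exact ⟨t₀, ht₀, j, he⟩
  -- approximate along the line
  obtain ⟨s, m', hs, hsm⟩ := hkr (fun i => x i - γ t₀ i - R * ω i) (by
    refine ⟨-j, ?_⟩
    have e1 : ∑ i, (k₀ i : ℝ) * (x i - γ t₀ i - R * ω i) =
        ∑ i, (k₀ i : ℝ) * x i - f t₀ - R * ∑ i, k₀ i * ω i := by
      rw [hf, Finset.mul_sum, ← Finset.sum_sub_distrib, ← Finset.sum_sub_distrib]
      refine Finset.sum_congr rfl fun i _ => ?_
      ring
    rw [e1, hk₀, hj]
    push_cast
    ring)
  have hs' := abs_le.mp hs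
  set t : ℝ := t₀ + (R + s) / T with ht
  have htt : t - t₀ = (R + s) / T := by rw [ht]; ring
  have h0 : 0 ≤ (R + s) / T := by
    apply div_nonneg _ hT0.le
    linarith
  have h1 : (R + s) / T ≤ 1 := by
    rw [div_le_one hT0]; linarith
  have h2 := hest t₀ t (by linarith) (by linarith)
  rw [htt] at h2
  have h3 : (R + s) / T * T = R + s := by field_simp
  rw [h3] at h2
  have h4 : (b / a) ^ 2 * ((R + s) / T) * ∑ i, ((m i : ℝ) - T * ω i) ^ 2 < (ε / 2) ^ 2 := by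
    have e1 : (b / a) ^ 2 * ((R + s) / T) * ∑ i, ((m i : ℝ) - T * ω i) ^ 2 ≤
        (b / a) ^ 2 * ((2 * R) / T) * (n * D₀ ^ 2) := by
      gcongr
      linarith
    have e2 : (b / a) ^ 2 * ((2 * R) / T) * (n * D₀ ^ 2) = 2 * B * R / T := by
      rw [hB]; ring
    rw [e2] at e1
    refine lt_of_le_of_lt e1 ?_
    rw [div_lt_iff₀ hT0]
    nlinarith
  refine ⟨t, m', fun i => ?_⟩
  have h5 : (γ t i - γ t₀ i - (R + s) * ω i) ^ 2 < (ε / 2) ^ 2 := by
    refine lt_of_le_of_lt ?_ (lt_of_le_of_lt h2 h4)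
    exact Finset.single_le_sum (f := fun i => (γ t i - γ t₀ i - (R + s) * ω i) ^ 2)
      (fun i _ => sq_nonneg _) (Finset.mem_univ i)
  have h6 : |γ t i - γ t₀ i - (R + s) * ω i| < ε / 2 := abs_lt_of_sq_lt_sq h5 (by positivity)
  have h7 := hsm i
  have h8 : γ t i + m' i - x i = (γ t i - γ t₀ i - (R + s) * ω i) +
      (s * ω i + m' i - (x i - γ t₀ i - R * ω i)) := by ring
  rw [h8]
  calc _ ≤ |γ t i - γ t₀ i - (R + s) * ω i| + |s * ω i + m' i - (x i - γ t₀ i - R * ω i)| :=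
        abs_add_le _ _
    _ < ε := by linarith

end Helper59.Torus
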