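import Pool.Agent.Helper59.KT.Metric

/-! Project KT (MP_478427_gt): closed discrete minimisers. -/

set_option maxSynthPendingDepth 3
set_option linter.unusedSectionVars false

namespace Helper59.KT

open Set Filter Topology
open scoped NNReal

variable {V : Type*} [NormedAddCommGroup V] [NormedSpace ℝ V] [FiniteDimensional ℝ V]
variable {L : AddSubgroup V} {K : Set V} {g : V → V →L[ℝ] V →L[ℝ] ℝ}

/-- The `i`-th vertex of the polygon. -/
noncomputable def vtx (N : ℕ) (l : V) (y : ZMod N → V) (i : ZMod N) : V :=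
  y i + ((i.val : ℝ) / N) • l

/-- The `i`-th edge of the polygon. -/
noncomputable def edge (N : ℕ) (l : V) (y : ZMod N → V) (i : ZMod N) : V :=
  y (i + 1) - y i + (N : ℝ)⁻¹ • l

/-- The discrete energy. -/
noncomputable def act (g : V → V →L[ℝ] V →L[ℝ] ℝ) (N : ℕ) [NeZero N] (l : V)
    (y : ZMod N → V) : ℝ :=
  ∑ i, g (vtx N l y i) (edge N l y i) (edge N l y i)

section
variable (N : ℕ) [NeZero N] (l : V)

lemma continuous_vtx (i : ZMod N) : Continuous (fun y : ZMod N → V => vtx N l y i) := by
  unfold vtx; fun_prop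

lemma continuous_edge (i : ZMod N) : Continuous (fun y : ZMod N → V => edge N l y i) := by
  unfold edge; fun_prop

lemma continuous_act (hg : IsPerMetric L g) : Continuous (act g N l) := by
  unfold act
  refine continuous_finsetSum _ fun i _ => ?_
  have h1 : Continuous (fun y : ZMod N → V => g (vtx N l y i)) :=
    hg.smooth.continuous.comp (continuous_vtx N l i)
  exact (h1.clm_apply (continuous_edge N l i)).clm_apply (continuous_edge N l i)

lemma edge_shift (y : ZMod N → V) (l' : V) (i : ZMod N) :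
    edge N l (fun i => y i + l') i = edge N l y i := by
  simp only [edge, add_sub_add_right_eq_sub]

lemma act_shift (hg : IsPerMetric L g) (y : ZMod N → V) {l' : V} (hl' : l' ∈ L) :
    act g N l (fun i => y i + l') = act g N l y := by
  unfold act
  refine Finset.sum_congr rfl fun i _ => ?_
  have h1 : vtx N l (fun i => y i + l') i = vtx N l y i + l' := by
    simp only [vtx, add_right_comm]
  rw [h1, edge_shift N l y l' i, hg.periodic _ _ hl']

lemma act_term_nonneg {lam Lam D : ℝ} (C : Consts g lam Lam D) (y : ZMod N → V) (i : ZMod N) :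
    0 ≤ g (vtx N l y i) (edge N l y i) (edge N l y i) :=
  le_trans (by have := C.lam_pos; positivity) (C.lam_le _ _)

lemma edge_le_act {lam Lam D : ℝ} (C : Consts g lam Lam D) (y : ZMod N → V) (i : ZMod N) :
    lam * ‖edge N l y i‖ ^ 2 ≤ act g N l y := by
  refine (C.lam_le (vtx N l y i) _).trans ?_
  unfold act
  exact Finset.single_le_sum (f := fun i => g (vtx N l y i) (edge N l y i) (edge N l y i))
    (fun i _ => act_term_nonneg N l C y i) (Finset.mem_univ i)

/-- A discrete closed minimiser exists. -/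
lemma exists_min (hK : Cocompact L K) (hg : IsPerMetric L g) {lam Lam D : ℝ}
    (C : Consts g lam Lam D) : ∃ y, ∀ y', act g N l y ≤ act g N l y' := by
  set c0 := act g N l (fun _ => (0 : V)) with hc0
  have hc0n : 0 ≤ c0 := Finset.sum_nonneg fun i _ => act_term_nonneg N l C _ i
  set R := Real.sqrt (c0 / lam) with hR
  have hlam := C.lam_pos
  have hR2 : lam * R ^ 2 = c0 := by
    rw [hR, Real.sq_sqrt (by positivity)]; field_simp
  set Q : Set (ZMod N → V) := {y | y 0 ∈ K ∧ ∀ i, ‖edge N l y i‖ ≤ R} with hQ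
  have hclosed : IsClosed Q := by
    have h1 : IsClosed {y : ZMod N → V | y 0 ∈ K} :=
      hK.compact.isClosed.preimage (continuous_apply 0)
    have h2 : IsClosed {y : ZMod N → V | ∀ i, ‖edge N l y i‖ ≤ R} := by
      have : {y : ZMod N → V | ∀ i, ‖edge N l y i‖ ≤ R} =
          ⋂ i, {y : ZMod N → V | ‖edge N l y i‖ ≤ R} := by ext y; simp
      rw [this]
      exact isClosed_iInter fun i => isClosed_le (continuous_edge N l i).norm continuous_const
    exact h1.inter h2
  obtain ⟨RK, hRK⟩ := hK.compact.isBounded.exists_norm_le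
  have hbdd : Bornology.IsBounded Q := by
    rw [isBounded_iff_forall_norm_le]
    refine ⟨|RK| + N * (R + ‖l‖), fun y hy => ?_⟩
    have hRn : 0 ≤ R := Real.sqrt_nonneg _
    rw [pi_norm_le_iff_of_nonneg (by positivity)]
    intro i
    have h1 : ∀ j : ℕ, ‖y (j : ZMod N) - y 0‖ ≤ j * (R + ‖l‖) := by
      intro j
      induction j with
      | zero => simp
      | succ j ih =>
        have h2 := hy.2 (j : ZMod N)
        unfold edge at h2
        have h3 : y ((j + 1 : ℕ) : ZMod N) - y 0 =
            (y ((j : ZMod N) + 1) - y (j : ZMod N) + (N : ℝ)⁻¹ • l) - (N : ℝ)⁻¹ • l +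
              (y (j : ZMod N) - y 0) := by
          push_cast; abel
        rw [h3]
        have h4 : ‖(N : ℝ)⁻¹ • l‖ ≤ ‖l‖ := by
          rw [norm_smul]
          have h5 : ‖(N : ℝ)⁻¹‖ ≤ 1 := by
            rw [norm_inv, RCLike.norm_natCast]
            apply inv_le_one_of_one_le₀
            exact_mod_cast NeZero.one_le
          calc ‖(N : ℝ)⁻¹‖ * ‖l‖ ≤ 1 * ‖l‖ := by gcongr
            _ = ‖l‖ := one_mul _
        calc ‖(y ((j : ZMod N) + 1) - y (j : ZMod N) + (N : ℝ)⁻¹ • l) - (N : ℝ)⁻¹ • l +
              (y (j : ZMod N) - y 0)‖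
            ≤ ‖(y ((j : ZMod N) + 1) - y (j : ZMod N) + (N : ℝ)⁻¹ • l) - (N : ℝ)⁻¹ • l‖ +
              ‖y (j : ZMod N) - y 0‖ := norm_add_le _ _
          _ ≤ (‖y ((j : ZMod N) + 1) - y (j : ZMod N) + (N : ℝ)⁻¹ • l‖ + ‖(N : ℝ)⁻¹ • l‖) +
              ‖y (j : ZMod N) - y 0‖ := by gcongr; exact norm_sub_le _ _
          _ ≤ (R + ‖l‖) + j * (R + ‖l‖) := by gcongr
          _ = ((j + 1 : ℕ) : ℝ) * (R + ‖l‖) := by push_cast; ring
    have h2 := h1 i.val
    rw [ZMod.natCast_zmod_val] at h2
    have h3 : (i.val : ℝ) ≤ N := by exact_mod_cast (ZMod.val_lt i).le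
    have h4 : ‖y 0‖ ≤ |RK| := (hRK _ hy.1).trans (le_abs_self _)
    calc ‖y i‖ = ‖y 0 + (y i - y 0)‖ := by congr 1; abel
      _ ≤ ‖y 0‖ + ‖y i - y 0‖ := norm_add_le _ _
      _ ≤ |RK| + i.val * (R + ‖l‖) := by gcongr
      _ ≤ |RK| + N * (R + ‖l‖) := by gcongr
  have hcomp : IsCompact Q := Metric.isCompact_of_isClosed_isBounded hclosed hbdd
  -- every configuration of small energy can be moved into `Q`
  have hmove : ∀ y, act g N l y ≤ c0 → ∃ y' ∈ Q, act g N l y' = act g N l y := by
    intro y hy
    obtain ⟨l', hl', hx⟩ := hK.cover (y 0)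
    refine ⟨fun i => y i + (-l'), ⟨?_, fun i => ?_⟩, act_shift N l hg y (L.neg_mem hl')⟩
    · show y 0 + -l' ∈ K
      rw [← sub_eq_add_neg]; exact hx
    · rw [edge_shift N l y (-l') i]
      have h2 := edge_le_act N l C y i
      have h3 : lam * ‖edge N l y i‖ ^ 2 ≤ lam * R ^ 2 := by rw [hR2]; exact h2.trans hy
      have h4 : ‖edge N l y i‖ ^ 2 ≤ R ^ 2 := le_of_mul_le_mul_left h3 hlam
      exact abs_le_of_sq_le_sq' h4 (Real.sqrt_nonneg _) |>.2
  obtain ⟨y0, hy0, hy0e⟩ := hmove (fun _ => 0) le_rfl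
  obtain ⟨y, hy, hmin⟩ := hcomp.exists_isMinOn ⟨y0, hy0⟩ (continuous_act N l hg).continuousOn
  refine ⟨y, fun y' => ?_⟩
  by_cases hle : act g N l y' ≤ c0
  · obtain ⟨y'', hy'', he⟩ := hmove y' hle
    rw [← he]
    exact hmin hy''
  · push Not at hle
    have h1 : act g N l y ≤ act g N l y0 := hmin hy0
    rw [hy0e] at h1
    exact h1.trans hle.le

/-- The discrete Euler-Lagrange equation. -/
lemma euler (hg : IsPerMetric L g) {y : ZMod N → V} (hmin : ∀ y', act g N l y ≤ act g N l y')
    (i : ZMod N) : g (vtx N l y i) (edge N l y i) - g (vtx N l y (i - 1)) (edge N l y (i - 1)) =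
      force g (vtx N l y i) (edge N l y i) := by
  ext1 w
  set u : ZMod N → V := Pi.single i w with hu
  -- derivative of each term
  have hterm : ∀ j, HasDerivAt (fun s : ℝ => g (vtx N l (y + s • u) j) (edge N l (y + s • u) j)
      (edge N l (y + s • u) j))
      (fderiv ℝ g (vtx N l y j) (u j) (edge N l y j) (edge N l y j) +
        2 * g (vtx N l y j) (edge N l y j) (u (j + 1) - u j)) 0 := by
    intro j
    have hv : HasDerivAt (fun s : ℝ => vtx N l (y + s • u) j) (u j) 0 := by
      have h1 : (fun s : ℝ => vtx N l (y + s • u) j) = fun s => vtx N l y j + s • u j := by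
        ext1 s; unfold vtx; simp only [Pi.add_apply, Pi.smul_apply]; abel
      rw [h1]
      simpa using ((hasDerivAt_id (0 : ℝ)).smul_const (u j)).const_add (vtx N l y j)
    have he : HasDerivAt (fun s : ℝ => edge N l (y + s • u) j) (u (j + 1) - u j) 0 := by
      have h1 : (fun s : ℝ => edge N l (y + s • u) j) =
          fun s => edge N l y j + s • (u (j + 1) - u j) := by
        ext1 s; unfold edge; simp only [Pi.add_apply, Pi.smul_apply, smul_sub]; abel
      rw [h1]
      simpa using ((hasDerivAt_id (0 : ℝ)).smul_const (u (j + 1) - u j)).const_add (edge N l y j)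
    have hv0 : vtx N l (y + (0 : ℝ) • u) j = vtx N l y j := by simp
    have he0 : edge N l (y + (0 : ℝ) • u) j = edge N l y j := by simp
    have hgd : HasDerivAt (fun s : ℝ => g (vtx N l (y + s • u) j))
        (fderiv ℝ g (vtx N l y j) (u j)) 0 := by
      have h1 : HasFDerivAt g (fderiv ℝ g (vtx N l y j)) (vtx N l (y + (0 : ℝ) • u) j) := by
        rw [hv0]
        exact (hg.smooth.differentiable one_ne_zero _).hasFDerivAt
      exact h1.comp_hasDerivAt (0 : ℝ) hv
    have h2 := (hgd.clm_apply he).clm_apply he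
    rw [hv0, he0] at h2
    refine h2.congr_deriv ?_
    simp only [add_apply]
    rw [hg.symm (vtx N l y j) (u (j + 1) - u j) (edge N l y j)]
    ring
  have hsum : HasDerivAt (fun s : ℝ => act g N l (y + s • u))
      (∑ j, (fderiv ℝ g (vtx N l y j) (u j) (edge N l y j) (edge N l y j) +
        2 * g (vtx N l y j) (edge N l y j) (u (j + 1) - u j))) 0 := by
    unfold act
    exact HasDerivAt.fun_sum fun j _ => hterm j
  have hloc : IsLocalMin (fun s : ℝ => act g N l (y + s • u)) 0 := by
    filter_upwards with s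
    simp only [zero_smul, add_zero]
    exact hmin _
  have hzero := hloc.hasDerivAt_eq_zero hsum
  rw [Finset.sum_add_distrib] at hzero
  have h1 : ∑ j, fderiv ℝ g (vtx N l y j) (u j) (edge N l y j) (edge N l y j) =
      fderiv ℝ g (vtx N l y i) w (edge N l y i) (edge N l y i) := by
    rw [Finset.sum_eq_single i]
    · simp [hu]
    · intro j _ hj; simp [hu, hj]
    · simp
  have h2 : ∑ j, 2 * g (vtx N l y j) (edge N l y j) (u (j + 1) - u j) =
      2 * (g (vtx N l y (i - 1)) (edge N l y (i - 1)) w) -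
        2 * (g (vtx N l y i) (edge N l y i) w) := by
    have h3 : ∀ j, 2 * g (vtx N l y j) (edge N l y j) (u (j + 1) - u j) =
        2 * g (vtx N l y j) (edge N l y j) (u (j + 1)) -
          2 * g (vtx N l y j) (edge N l y j) (u j) := by
      intro j; rw [map_sub]; ring
    simp only [h3]
    rw [Finset.sum_sub_distrib]
    congr 1
    · rw [Finset.sum_eq_single (i - 1)]
      · simp [hu]
      · intro j _ hj
        have : j + 1 ≠ i := fun h => hj (by rw [← h]; ring)
        simp [hu, this]
      · simp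
    · rw [Finset.sum_eq_single i]
      · simp [hu]
      · intro j _ hj; simp [hu, hj]
      · simp
  rw [h1, h2] at hzero
  rw [sub_apply, force_apply]
  linarith

end

end Helper59.KT
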