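import Pool.Agent.Helper59.KT.Closed

/-! Project KT (MP_478427_gt): an invariant Lagrangian graph and the competitor. -/

set_option maxSynthPendingDepth 3
set_option linter.unusedSectionVars false

namespace Helper59.KT

open Set Filter Topology
open scoped NNReal

variable {V : Type*} [NormedAddCommGroup V] [NormedSpace ℝ V] [FiniteDimensional ℝ V]
variable {L : AddSubgroup V} {K : Set V} {g : V → V →L[ℝ] V →L[ℝ] ℝ}

/-- `S` is a `C²` solution of the Hamilton-Jacobi equation with periods `P`, gradient `X` and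
energy `e`. -/
structure Graph (L : AddSubgroup V) (g : V → V →L[ℝ] V →L[ℝ] ℝ) (S : V → ℝ) (P : V →L[ℝ] ℝ)
    (X : V → V) (e : ℝ) : Prop where
  smooth : ContDiff ℝ 2 S
  per : ∀ x, ∀ l ∈ L, S (x + l) = S x + P l
  grad : ∀ x, g x (X x) = fderiv ℝ S x
  energy : ∀ x, g x (X x) (X x) = 2 * e
  e_pos : 0 < e

variable {S : V → ℝ} {P : V →L[ℝ] ℝ} {X : V → V} {e : ℝ}

lemma Graph.dS_per (H : Graph L g S P X e) (x : V) {l : V} (hl : l ∈ L) :
    fderiv ℝ S (x + l) = fderiv ℝ S x := by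
  have h1 : HasFDerivAt (fun y => S (y + l)) (fderiv ℝ S (x + l)) x :=
    (hasFDerivAt_comp_add_right (f := S) l).mpr
      ((H.smooth.differentiable two_ne_zero (x + l)).hasFDerivAt)
  have h2 : HasFDerivAt (fun y => S (y + l)) (fderiv ℝ S x) x := by
    have h3 : (fun y => S (y + l)) = fun y => S y + P l := by
      ext y; exact H.per y l hl
    rw [h3]
    exact ((H.smooth.differentiable two_ne_zero x).hasFDerivAt).add_const _
  exact h1.unique h2

lemma Graph.X_eq (hg : IsPerMetric L g) (H : Graph L g S P X e) :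
    X = fun x => (g x).inverse (fderiv ℝ S x) := by
  ext1 x
  rw [← H.grad x]
  exact ((hg.isInvertible x).inverse_apply_self _).symm

lemma Graph.dS_contDiff (H : Graph L g S P X e) : ContDiff ℝ 1 (fderiv ℝ S) :=
  H.smooth.fderiv_right (by norm_num)

lemma Graph.X_contDiff (hg : IsPerMetric L g) (H : Graph L g S P X e) : ContDiff ℝ 1 X := by
  rw [H.X_eq hg]
  exact (contDiff_inverse hg).clm_apply H.dS_contDiff

lemma Graph.X_per (hg : IsPerMetric L g) (H : Graph L g S P X e) (x : V) {l : V} (hl : l ∈ L) :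
    X (x + l) = X x := by
  rw [H.X_eq hg]
  simp only
  rw [H.dS_per x hl, hg.periodic x l hl]

lemma lip_of_per (hK : Cocompact L K) {F : Type*} [NormedAddCommGroup F] [NormedSpace ℝ F]
    {f : V → F} (hf : ContDiff ℝ 1 f) (hper : ∀ x, ∀ l ∈ L, f (x + l) = f x) :
    ∃ C : ℝ≥0, 0 < C ∧ LipschitzWith C f := by
  obtain ⟨C, hC0, hC⟩ := bdd_of_per hK (fderiv ℝ f) (hf.continuous_fderiv one_ne_zero)
    (fun x l hl => fderiv_per f l (fun x => hper x l hl) x)
  refine ⟨⟨C, hC0.le⟩, hC0, lipschitzWith_of_nnnorm_fderiv_le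
    (hf.differentiable one_ne_zero) fun x => ?_⟩
  exact hC x

lemma Graph.X_lip (hK : Cocompact L K) (hg : IsPerMetric L g) (H : Graph L g S P X e) :
    ∃ C : ℝ≥0, 0 < C ∧ LipschitzWith C X :=
  lip_of_per hK (H.X_contDiff hg) fun x _ hl => H.X_per hg x hl

lemma Graph.X_bdd (hK : Cocompact L K) (hg : IsPerMetric L g) (H : Graph L g S P X e) :
    ∃ C : ℝ≥0, 0 < C ∧ ∀ x, ‖X x‖ ≤ C := by
  obtain ⟨C, hC0, hC⟩ := bdd_of_per hK X (H.X_contDiff hg).continuous
    (fun x _ hl => H.X_per hg x hl)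
  exact ⟨⟨C, hC0.le⟩, hC0, hC⟩

lemma Graph.dS_lip (hK : Cocompact L K) (H : Graph L g S P X e) :
    ∃ C : ℝ≥0, 0 < C ∧ LipschitzWith C (fderiv ℝ S) :=
  lip_of_per hK H.dS_contDiff fun x _ hl => H.dS_per x hl

lemma Graph.osc (hK : Cocompact L K) (H : Graph L g S P X e) :
    ∃ C : ℝ, 0 < C ∧ ∀ x, |S x - P x| ≤ C :=
  bdd_of_per hK (fun x => S x - P x) (H.smooth.continuous.sub P.continuous)
    (fun x l hl => by simp only [map_add, H.per x l hl]; ring)

/-- The polygon inscribed in a closed curve. -/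
lemma polygon (g : V → V →L[ℝ] V →L[ℝ] ℝ) (c : ℝ → V) {l : V} (T₀ j : ℕ)
    [NeZero (T₀ * (j + 1))] (hc : c T₀ = c 0 + l) :
    ∃ y : ZMod (T₀ * (j + 1)) → V, act g (T₀ * (j + 1)) l y =
      ∑ s ∈ Finset.range (T₀ * (j + 1)), g (c (s / (j + 1)))
        (c ((s + 1) / (j + 1)) - c (s / (j + 1))) (c ((s + 1) / (j + 1)) - c (s / (j + 1))) := by
  set N := T₀ * (j + 1) with hN
  have hN0 : (N : ℝ) ≠ 0 := by exact_mod_cast NeZero.ne N
  have hj : (j : ℝ) + 1 ≠ 0 := by positivity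
  have hT : (T₀ : ℝ) ≠ 0 := by
    have : T₀ ≠ 0 := by rintro rfl; simp at hN; exact NeZero.ne N (by rw [hN])
    exact_mod_cast this
  set y : ZMod N → V := fun i => c ((i.val : ℝ) / (j + 1)) - ((i.val : ℝ) / N) • l with hy
  refine ⟨y, ?_⟩
  have hvtx : ∀ i : ZMod N, vtx N l y i = c ((i.val : ℝ) / (j + 1)) := by
    intro i; simp only [vtx, hy]; abel
  have hedge : ∀ i : ZMod N, edge N l y i =
      c (((i.val : ℝ) + 1) / (j + 1)) - c ((i.val : ℝ) / (j + 1)) := by
    intro i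
    have hval : (i + 1).val = (i.val + 1) % N := by
      have e1 : i + 1 = ((i.val + 1 : ℕ) : ZMod N) := by
        push_cast; rw [ZMod.natCast_zmod_val]
      rw [e1, ZMod.val_natCast]
    unfold edge
    have hlt := ZMod.val_lt i
    rcases Nat.lt_or_ge (i.val + 1) N with h1 | h1
    · rw [Nat.mod_eq_of_lt h1] at hval
      simp only [hy, hval]
      push_cast
      have e2 : (((i.val : ℝ) + 1) / N) • l = ((i.val : ℝ) / N) • l + (N : ℝ)⁻¹ • l := by
        rw [← add_smul]; congr 1; field_simp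
      rw [e2]; abel
    · have h2 : i.val + 1 = N := by omega
      rw [h2, Nat.mod_self] at hval
      have h3 : (i.val : ℝ) = N - 1 := by
        have : ((i.val + 1 : ℕ) : ℝ) = N := by exact_mod_cast h2
        push_cast at this; linarith
      simp only [hy, hval]
      have e3 : ((i.val : ℝ) + 1) / (j + 1) = T₀ := by
        rw [h3, hN]; push_cast; field_simp; ring
      rw [e3, hc]
      simp only [Nat.cast_zero, zero_div, zero_smul, sub_zero]
      have e4 : ((i.val : ℝ) / N) • l + (N : ℝ)⁻¹ • l = l := by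
        rw [← add_smul, h3]
        have : ((N : ℝ) - 1) / N + (N : ℝ)⁻¹ = 1 := by field_simp; ring
        rw [this, one_smul]
      nth_rw 3 [← e4]
      abel
  have e5 : act g N l y = ∑ i : ZMod N, g (c ((i.val : ℝ) / (j + 1)))
      (c (((i.val : ℝ) + 1) / (j + 1)) - c ((i.val : ℝ) / (j + 1)))
      (c (((i.val : ℝ) + 1) / (j + 1)) - c ((i.val : ℝ) / (j + 1))) :=
    Finset.sum_congr rfl fun i _ => by rw [hvtx i, hedge i]
  rw [e5, ← sum_range_zmod N (fun i => g (c ((i.val : ℝ) / (j + 1)))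
    (c (((i.val : ℝ) + 1) / (j + 1)) - c ((i.val : ℝ) / (j + 1)))
    (c (((i.val : ℝ) + 1) / (j + 1)) - c ((i.val : ℝ) / (j + 1))))]
  refine Finset.sum_congr rfl fun s hs => ?_
  rw [ZMod.val_natCast_of_lt (Finset.mem_range.mp hs)]

end Helper59.KT
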