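import Mathlib

/-! Project KT (MP_478427_gt): Kronecker's theorem for a line in the torus. -/

namespace Helper59.KT

open Set Filter Topology MeasureTheory

variable {n : ℕ}

/-- The projection to the torus. -/
def pt (x : Fin n → ℝ) : UnitAddTorus (Fin n) := fun i => ((x i : ℝ) : UnitAddCircle)

lemma continuous_pt : Continuous (pt : (Fin n → ℝ) → UnitAddTorus (Fin n)) :=
  continuous_pi fun i => (AddCircle.continuous_mk' (1 : ℝ)).comp (continuous_apply i)

lemma pt_add (x y : Fin n → ℝ) : pt (x + y) = pt x + pt y := by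
  ext i; simp [pt]

lemma mFourier_pt (k : Fin n → ℤ) (x : Fin n → ℝ) :
    UnitAddTorus.mFourier k (pt x) =
      Complex.exp (2 * Real.pi * Complex.I * ((∑ i, (k i : ℝ) * x i : ℝ) : ℂ)) := by
  simp only [UnitAddTorus.mFourier, ContinuousMap.coe_mk, pt, fourier_coe_apply]
  rw [← Complex.exp_sum]
  congr 1
  push_cast
  rw [Finset.mul_sum]
  refine Finset.sum_congr rfl fun i _ => ?_
  ring

/-- The difference of the averages over two orbits. -/
noncomputable def avg (x ω : Fin n → ℝ) (f : C(UnitAddTorus (Fin n), ℂ)) (T : ℝ) : ℂ :=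
  ∫ t in (0 : ℝ)..1, (f (pt (x + (T * t) • ω)) - f (pt ((T * t) • ω)))

lemma cont_int (x ω : Fin n → ℝ) (f : C(UnitAddTorus (Fin n), ℂ)) (T : ℝ) :
    Continuous (fun t : ℝ => f (pt (x + (T * t) • ω)) - f (pt ((T * t) • ω))) := by
  refine Continuous.sub ?_ ?_
  · exact f.continuous.comp (continuous_pt.comp (by fun_prop))
  · exact f.continuous.comp (continuous_pt.comp (by fun_prop))

lemma avg_add (x ω : Fin n → ℝ) (f h : C(UnitAddTorus (Fin n), ℂ)) (T : ℝ) :
    avg x ω (f + h) T = avg x ω f T + avg x ω h T := by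
  unfold avg
  rw [← intervalIntegral.integral_add ((cont_int x ω f T).intervalIntegrable _ _)
    ((cont_int x ω h T).intervalIntegrable _ _)]
  congr 1
  ext t
  simp only [ContinuousMap.add_apply]
  ring

lemma avg_smul (x ω : Fin n → ℝ) (f : C(UnitAddTorus (Fin n), ℂ)) (c : ℂ) (T : ℝ) :
    avg x ω (c • f) T = c * avg x ω f T := by
  unfold avg
  rw [← intervalIntegral.integral_const_mul]
  congr 1
  ext t
  simp only [ContinuousMap.smul_apply, smul_eq_mul]
  ring

lemma avg_le (x ω : Fin n → ℝ) (f : C(UnitAddTorus (Fin n), ℂ)) (T : ℝ) :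
    ‖avg x ω f T‖ ≤ 2 * ‖f‖ := by
  unfold avg
  have h := intervalIntegral.norm_integral_le_of_norm_le_const (a := 0) (b := 1)
    (f := fun t : ℝ => f (pt (x + (T * t) • ω)) - f (pt ((T * t) • ω))) (C := 2 * ‖f‖) (by
      intro t _
      refine (norm_sub_le _ _).trans ?_
      have h1 := f.norm_coe_le_norm (pt (x + (T * t) • ω))
      have h2 := f.norm_coe_le_norm (pt ((T * t) • ω))
      linarith)
  simpa using h

lemma avg_mFourier {x ω : Fin n → ℝ}
    (h : ∀ k : Fin n → ℤ, ∑ i, (k i : ℝ) * ω i = 0 → ∃ j : ℤ, ∑ i, (k i : ℝ) * x i = j)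
    (k : Fin n → ℤ) : Tendsto (avg x ω (UnitAddTorus.mFourier k)) atTop (𝓝 0) := by
  set θ : ℝ := ∑ i, (k i : ℝ) * ω i with hθ
  set a : ℝ := ∑ i, (k i : ℝ) * x i with ha
  have hint : ∀ T t : ℝ, UnitAddTorus.mFourier k (pt (x + (T * t) • ω)) -
      UnitAddTorus.mFourier k (pt ((T * t) • ω)) =
      (Complex.exp (2 * Real.pi * Complex.I * (a : ℂ)) - 1) *
        Complex.exp (2 * Real.pi * Complex.I * ((T * θ : ℝ) : ℂ) * t) := by
    intro T t
    rw [mFourier_pt, mFourier_pt]
    have e1 : ∑ i, (k i : ℝ) * (x + (T * t) • ω) i = a + T * θ * t := by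
      rw [ha, hθ]
      simp only [Pi.add_apply, Pi.smul_apply, smul_eq_mul, mul_add, Finset.sum_add_distrib,
        Finset.mul_sum, Finset.sum_mul]
      congr 1
      refine Finset.sum_congr rfl fun i _ => ?_
      ring
    have e2 : ∑ i, (k i : ℝ) * ((T * t) • ω) i = T * θ * t := by
      rw [hθ]
      simp only [Pi.smul_apply, smul_eq_mul, Finset.mul_sum, Finset.sum_mul]
      refine Finset.sum_congr rfl fun i _ => ?_
      ring
    rw [e1, e2, sub_mul, one_mul, ← Complex.exp_add]
    congr 2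
    · push_cast; ring
    · push_cast; ring
  by_cases h0 : θ = 0
  · obtain ⟨j, hj⟩ := h k h0
    have e1 : Complex.exp (2 * Real.pi * Complex.I * (a : ℂ)) = 1 := by
      rw [Complex.exp_eq_one_iff]
      refine ⟨j, ?_⟩
      have : (a : ℂ) = (j : ℂ) := by
        have h2 : a = (j : ℝ) := hj
        rw [h2]; simp
      rw [this]; ring
    have e2 : avg x ω (UnitAddTorus.mFourier k) = fun _ => 0 := by
      ext T
      unfold avg
      simp only [hint, e1, sub_self, zero_mul, intervalIntegral.integral_zero]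
    rw [e2]
    exact tendsto_const_nhds
  · have hθ0 : 0 < |θ| := abs_pos.mpr h0
    have hb : ∀ T > 0, ‖avg x ω (UnitAddTorus.mFourier k) T‖ ≤ (2 / |θ|) * T⁻¹ := by
      intro T hT
      unfold avg
      simp only [hint]
      rw [intervalIntegral.integral_const_mul]
      set c : ℂ := 2 * Real.pi * Complex.I * ((T * θ : ℝ) : ℂ) with hc
      have hcn : ‖c‖ = 2 * Real.pi * (T * |θ|) := by
        rw [hc, norm_mul, norm_mul, norm_mul, Complex.norm_I, Complex.norm_real,
          Complex.norm_real, Real.norm_eq_abs, Real.norm_eq_abs, abs_mul, abs_of_pos hT,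
          abs_of_pos Real.pi_pos]
        simp
      have hc0 : c ≠ 0 := by
        rw [← norm_pos_iff, hcn]
        have := Real.pi_pos
        positivity
      rw [integral_exp_mul_complex hc0, norm_mul, norm_div, hcn]
      have hexp : ∀ t : ℝ, ‖Complex.exp (c * t)‖ = 1 := by
        intro t
        rw [Complex.norm_exp]
        have : (c * t).re = 0 := by
          rw [hc]
          simp
        rw [this, Real.exp_zero]
      have hnum : ‖Complex.exp (c * (1 : ℝ)) - Complex.exp (c * (0 : ℝ))‖ ≤ 2 := by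
        calc _ ≤ ‖Complex.exp (c * (1 : ℝ))‖ + ‖Complex.exp (c * (0 : ℝ))‖ := norm_sub_le _ _
          _ = 2 := by rw [hexp, hexp]; norm_num
      have hn1 : ‖Complex.exp (2 * Real.pi * Complex.I * (a : ℂ)) - 1‖ ≤ 2 := by
        have e3 : ‖Complex.exp (2 * Real.pi * Complex.I * (a : ℂ))‖ = 1 := by
          rw [Complex.norm_exp]
          have : (2 * Real.pi * Complex.I * (a : ℂ)).re = 0 := by simp
          rw [this, Real.exp_zero]
        calc _ ≤ ‖Complex.exp (2 * Real.pi * Complex.I * (a : ℂ))‖ + ‖(1 : ℂ)‖ := norm_sub_le _ _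
          _ = 2 := by rw [e3, norm_one]; norm_num
      have hpi : 1 ≤ Real.pi := by linarith [Real.pi_gt_three]
      calc _ ≤ 2 * (2 / (2 * Real.pi * (T * |θ|))) := by gcongr
        _ ≤ 2 * (2 / (2 * 1 * (T * |θ|))) := by gcongr
        _ = (2 / |θ|) * T⁻¹ := by field_simp
    have h2 : Tendsto (fun T : ℝ => (2 / |θ|) * T⁻¹) atTop (𝓝 0) := by
      simpa using tendsto_inv_atTop_zero.const_mul (2 / |θ|)
    refine squeeze_zero_norm' ?_ h2
    filter_upwards [eventually_gt_atTop (0 : ℝ)] with T hT using hb T hT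

lemma avg_span {x ω : Fin n → ℝ}
    (h : ∀ k : Fin n → ℤ, ∑ i, (k i : ℝ) * ω i = 0 → ∃ j : ℤ, ∑ i, (k i : ℝ) * x i = j)
    {f : C(UnitAddTorus (Fin n), ℂ)}
    (hf : f ∈ Submodule.span ℂ (range (UnitAddTorus.mFourier (d := Fin n)))) :
    Tendsto (avg x ω f) atTop (𝓝 0) := by
  induction hf using Submodule.span_induction with
  | mem f hf =>
    obtain ⟨k, rfl⟩ := hf
    exact avg_mFourier h k
  | zero =>
    have : avg x ω (0 : C(UnitAddTorus (Fin n), ℂ)) = fun _ => 0 := by
      ext T; simp [avg]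
    rw [this]
    exact tendsto_const_nhds
  | add f g _ _ hf hg =>
    have : avg x ω (f + g) = fun T => avg x ω f T + avg x ω g T := by
      ext T; exact avg_add x ω f g T
    rw [this]
    simpa using hf.add hg
  | smul c f _ hf =>
    have : avg x ω (c • f) = fun T => c * avg x ω f T := by
      ext T; exact avg_smul x ω f c T
    rw [this]
    simpa using hf.const_mul c

/-- Kronecker's theorem: the closure of a line in the torus is cut out by its characters. -/
theorem kronecker {ω x : Fin n → ℝ}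
    (h : ∀ k : Fin n → ℤ, ∑ i, (k i : ℝ) * ω i = 0 → ∃ j : ℤ, ∑ i, (k i : ℝ) * x i = j)
    {ε : ℝ} (hε : 0 < ε) : ∃ (t : ℝ) (m : Fin n → ℤ), ∀ i, |t * ω i + m i - x i| < ε := by
  set H : Set (UnitAddTorus (Fin n)) := closure (range fun t : ℝ => pt (t • ω)) with hH
  have hHne : H.Nonempty := ⟨pt ((0 : ℝ) • ω), subset_closure ⟨0, rfl⟩⟩
  have hHadd : ∀ (s : ℝ) (y : UnitAddTorus (Fin n)), y ∈ H → y + pt (s • ω) ∈ H := by
    intro s y hy
    have h1 : MapsTo (fun y => y + pt (s • ω)) (range fun t : ℝ => pt (t • ω))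
        (range fun t : ℝ => pt (t • ω)) := by
      rintro _ ⟨t, rfl⟩
      exact ⟨t + s, by simp only [add_smul, pt_add]⟩
    exact h1.closure (continuous_id.add continuous_const) hy
  have hinf : ∀ (s : ℝ) (y : UnitAddTorus (Fin n)),
      Metric.infDist (y + pt (s • ω)) H ≤ Metric.infDist y H := by
    intro s y
    refine (Metric.le_infDist hHne).mpr fun z hz => ?_
    have h1 := Metric.infDist_le_dist_of_mem (x := y + pt (s • ω)) (hHadd s z hz)
    rwa [dist_add_right] at h1
  have hinf2 : ∀ (s : ℝ), Metric.infDist (pt (x + s • ω)) H = Metric.infDist (pt x) H := by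
    intro s
    apply le_antisymm
    · rw [pt_add]; exact hinf s (pt x)
    · have h1 := hinf (-s) (pt (x + s • ω))
      have h2 : pt (x + s • ω) + pt (-s • ω) = pt x := by
        rw [← pt_add]; congr 1; simp
      rwa [h2] at h1
  have hinf3 : ∀ (s : ℝ), Metric.infDist (pt (s • ω)) H = 0 := fun s =>
    Metric.infDist_zero_of_mem (subset_closure ⟨s, rfl⟩)
  set c := Metric.infDist (pt x) H with hc
  have hc0 : c = 0 := by
    by_contra hne
    have hcpos : 0 < c := lt_of_le_of_ne Metric.infDist_nonneg (Ne.symm hne)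
    set f : C(UnitAddTorus (Fin n), ℂ) := ⟨fun y => ((Metric.infDist y H : ℝ) : ℂ),
      Complex.continuous_ofReal.comp (Metric.continuous_infDist_pt H)⟩ with hf
    have hfc : f ∈ (Submodule.span ℂ
        (range (UnitAddTorus.mFourier (d := Fin n)))).topologicalClosure := by
      rw [UnitAddTorus.span_mFourier_closure_eq_top]
      exact Submodule.mem_top
    have hfc' : f ∈ closure ((Submodule.span ℂ
        (range (UnitAddTorus.mFourier (d := Fin n))) : Submodule ℂ C(UnitAddTorus (Fin n), ℂ)) :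
          Set C(UnitAddTorus (Fin n), ℂ)) := hfc
    obtain ⟨q, hq, hfq⟩ := Metric.mem_closure_iff.mp hfc' (c / 4) (by positivity)
    rw [dist_eq_norm] at hfq
    have h1 : ∀ T, avg x ω f T = (c : ℂ) := by
      intro T
      unfold avg
      have h2 : ∀ t : ℝ, f (pt (x + (T * t) • ω)) - f (pt ((T * t) • ω)) = (c : ℂ) := by
        intro t
        show ((Metric.infDist (pt (x + (T * t) • ω)) H : ℝ) : ℂ) -
          ((Metric.infDist (pt ((T * t) • ω)) H : ℝ) : ℂ) = _
        rw [hinf2, hinf3]
        simp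
      simp only [h2, intervalIntegral.integral_const, sub_zero, one_smul]
    have h3 : ∀ T, c ≤ c / 2 + ‖avg x ω q T‖ := by
      intro T
      have h4 : avg x ω f T = avg x ω (f - q) T + avg x ω q T := by
        rw [← avg_add]; congr 1; abel
      have h5 := avg_le x ω (f - q) T
      have h6 : ‖(c : ℂ)‖ = c := by
        rw [Complex.norm_real, Real.norm_eq_abs, abs_of_pos hcpos]
      rw [h1] at h4
      have h7 : c ≤ ‖avg x ω (f - q) T‖ + ‖avg x ω q T‖ := by
        calc c = ‖(c : ℂ)‖ := h6.symm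
          _ = ‖avg x ω (f - q) T + avg x ω q T‖ := by rw [h4]
          _ ≤ _ := norm_add_le _ _
      linarith
    have h8 : Tendsto (fun T => c / 2 + ‖avg x ω q T‖) atTop (𝓝 (c / 2 + 0)) := by
      have := (avg_span h hq).norm
      rw [norm_zero] at this
      exact this.const_add _
    have h9 := ge_of_tendsto' h8 h3
    linarith
  have hmem : pt x ∈ H := by
    have h1 := (isClosed_closure (s := range fun t : ℝ => pt (t • ω))).mem_iff_infDist_zero
      (x := pt x) hHne
    exact h1.mpr hc0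
  obtain ⟨y, ⟨t, rfl⟩, hy⟩ := Metric.mem_closure_iff.mp hmem ε hε
  refine ⟨t, fun i => round (x i - t * ω i), fun i => ?_⟩
  have h1 : dist (pt x i) (pt (t • ω) i) < ε := lt_of_le_of_lt (dist_le_pi_dist _ _ i) hy
  rw [dist_eq_norm] at h1
  have h2 : pt x i - pt (t • ω) i = ((x i - t * ω i : ℝ) : UnitAddCircle) := by
    simp [pt]
  rw [h2, UnitAddCircle.norm_eq] at h1
  have h3 : t * ω i + (round (x i - t * ω i) : ℝ) - x i =
      -(x i - t * ω i - (round (x i - t * ω i) : ℝ)) := by ring
  rw [h3, abs_neg]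
  exact h1

end Helper59.KT
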