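import Pool.Agent.Helper59.TG.Flow

/-! Project KT (MP_478427_gt): constants of a metric on a torus `V / L`. -/

set_option maxSynthPendingDepth 3
set_option linter.unusedSectionVars false

namespace Helper59.KT

open Set Filter Topology
open scoped NNReal

variable {V : Type*} [NormedAddCommGroup V] [NormedSpace ℝ V] [FiniteDimensional ℝ V]

/-- `K` is a compact set whose translates by `L` cover `V`. -/
structure Cocompact (L : AddSubgroup V) (K : Set V) : Prop where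
  compact : IsCompact K
  cover : ∀ x, ∃ l ∈ L, x - l ∈ K

/-- A `C¹` metric on `V / L`. -/
structure IsPerMetric (L : AddSubgroup V) (g : V → V →L[ℝ] V →L[ℝ] ℝ) : Prop where
  smooth : ContDiff ℝ 1 g
  symm : ∀ x v w, g x v w = g x w v
  pos : ∀ x v, v ≠ 0 → 0 < g x v v
  periodic : ∀ x, ∀ l ∈ L, g (x + l) = g x

variable {L : AddSubgroup V} {K : Set V} {g : V → V →L[ℝ] V →L[ℝ] ℝ}

lemma bdd_of_per (hK : Cocompact L K) {F : Type*} [NormedAddCommGroup F] (f : V → F)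
    (hf : Continuous f) (hper : ∀ x, ∀ l ∈ L, f (x + l) = f x) :
    ∃ C : ℝ, 0 < C ∧ ∀ x, ‖f x‖ ≤ C := by
  obtain ⟨C, hC⟩ := hK.compact.exists_bound_of_continuousOn hf.continuousOn
  refine ⟨|C| + 1, by positivity, fun x => ?_⟩
  obtain ⟨l, hl, hx⟩ := hK.cover x
  have h1 : f x = f (x - l) := by
    have := hper (x - l) l hl
    rwa [sub_add_cancel] at this
  rw [h1]
  exact (hC _ hx).trans ((le_abs_self C).trans (by linarith))

lemma exists_lam (hK : Cocompact L K) (hg : IsPerMetric L g) :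
    ∃ lam : ℝ, 0 < lam ∧ ∀ x v, lam * ‖v‖ ^ 2 ≤ g x v v := by
  set Q : Set (V × V) := K ×ˢ Metric.sphere (0 : V) 1 with hQ
  have hcomp : IsCompact Q := hK.compact.prod (isCompact_sphere _ _)
  have hcont : Continuous (fun z : V × V => g z.1 z.2 z.2) := by
    have h1 : Continuous (fun z : V × V => g z.1) :=
      hg.smooth.continuous.comp continuous_fst
    exact (h1.clm_apply continuous_snd).clm_apply continuous_snd
  obtain ⟨c, hc, hcb⟩ : ∃ c : ℝ, 0 < c ∧ ∀ z ∈ Q, c ≤ g z.1 z.2 z.2 := by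
    by_cases hne : Q.Nonempty
    · obtain ⟨z, hz, hmin⟩ := hcomp.exists_isMinOn hne hcont.continuousOn
      refine ⟨g z.1 z.2 z.2, ?_, fun w hw => hmin hw⟩
      apply hg.pos
      intro h0
      have h1 : ‖z.2‖ = 1 := by simpa using hz.2
      rw [h0, norm_zero] at h1
      exact zero_ne_one h1
    · exact ⟨1, one_pos, fun z hz => absurd ⟨z, hz⟩ hne⟩
  refine ⟨c, hc, fun x v => ?_⟩
  by_cases hv : v = 0
  · subst hv; simp
  · obtain ⟨l, hl, hy⟩ := hK.cover x
    have hgx : g x = g (x - l) := by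
      have := hg.periodic (x - l) l hl
      rwa [sub_add_cancel] at this
    rw [hgx]
    have hn : ‖v‖ ≠ 0 := norm_ne_zero_iff.mpr hv
    have h1 := hcb (x - l, ‖v‖⁻¹ • v) ⟨hy, by
      rw [mem_sphere_zero_iff_norm, norm_smul, norm_inv, norm_norm, inv_mul_cancel₀ hn]⟩
    simp only [map_smul, smul_apply, smul_eq_mul] at h1
    have h2 : 0 < ‖v‖ ^ 2 := by positivity
    have h3 : ‖v‖⁻¹ * (‖v‖⁻¹ * g (x - l) v v) = g (x - l) v v / ‖v‖ ^ 2 := by
      field_simp
    rw [h3, le_div_iff₀ h2] at h1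
    exact h1

lemma fderiv_per {F : Type*} [NormedAddCommGroup F] [NormedSpace ℝ F]
    (f : V → F) (l : V) (hper : ∀ x, f (x + l) = f x) (x : V) :
    fderiv ℝ f (x + l) = fderiv ℝ f x := by
  have h1 : f = fun y => f (y + l) := by
    ext1 y; exact (hper y).symm
  conv_rhs => rw [h1]
  exact (fderiv_comp_add_right (f := f) l).symm

/-- Constants of the metric. -/
structure Consts (g : V → V →L[ℝ] V →L[ℝ] ℝ) (lam Lam D : ℝ) : Prop where
  lam_pos : 0 < lam
  Lam_pos : 0 < Lam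
  D_pos : 0 < D
  lam_le : ∀ x v, lam * ‖v‖ ^ 2 ≤ g x v v
  Lam_ge : ∀ x, ‖g x‖ ≤ Lam
  D_ge : ∀ x, ‖fderiv ℝ g x‖ ≤ D

lemma exists_consts (hK : Cocompact L K) (hg : IsPerMetric L g) :
    ∃ lam Lam D, Consts g lam Lam D := by
  obtain ⟨lam, h1, h2⟩ := exists_lam hK hg
  obtain ⟨Lam, h3, h4⟩ := bdd_of_per hK g hg.smooth.continuous hg.periodic
  obtain ⟨D, h5, h6⟩ := bdd_of_per hK (fderiv ℝ g) (hg.smooth.continuous_fderiv one_ne_zero)
    (fun x l hl => fderiv_per g l (fun x => hg.periodic x l hl) x)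
  exact ⟨lam, Lam, D, h1, h3, h5, h2, h4, h6⟩

lemma Consts.lam_norm_le {lam Lam D : ℝ} (C : Consts g lam Lam D) (x v : V) :
    lam * ‖v‖ ≤ ‖g x v‖ := by
  by_cases hv : v = 0
  · subst hv; simp
  · have h1 := C.lam_le x v
    have h2 : g x v v ≤ ‖g x v‖ * ‖v‖ := (le_abs_self _).trans ((g x v).le_opNorm v)
    have h3 : 0 < ‖v‖ := norm_pos_iff.mpr hv
    have h4 : (lam * ‖v‖) * ‖v‖ ≤ ‖g x v‖ * ‖v‖ := by
      calc (lam * ‖v‖) * ‖v‖ = lam * ‖v‖ ^ 2 := by ring
        _ ≤ _ := h1.trans h2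
    exact le_of_mul_le_mul_right h4 h3

lemma Consts.norm_g_le {lam Lam D : ℝ} (C : Consts g lam Lam D) (x v : V) :
    ‖g x v‖ ≤ Lam * ‖v‖ := by
  refine ((g x).le_opNorm v).trans ?_
  gcongr
  exact C.Lam_ge x

lemma Consts.g_le {lam Lam D : ℝ} (C : Consts g lam Lam D) (x v w : V) :
    |g x v w| ≤ Lam * ‖v‖ * ‖w‖ := by
  have h1 : |g x v w| ≤ ‖g x v‖ * ‖w‖ := (g x v).le_opNorm w
  refine h1.trans ?_
  gcongr
  exact C.norm_g_le x v

/-- The force `w ↦ Dg(x)(w)(v, v) / 2`. -/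
noncomputable def force (g : V → V →L[ℝ] V →L[ℝ] ℝ) (x v : V) : V →L[ℝ] ℝ :=
  (2 : ℝ)⁻¹ • ((fderiv ℝ g x).flip v).flip v

lemma force_apply (x v w : V) : force g x v w = fderiv ℝ g x w v v / 2 := by
  simp only [force, smul_apply, ContinuousLinearMap.flip_apply, smul_eq_mul]
  ring

lemma Consts.force_le {lam Lam D : ℝ} (C : Consts g lam Lam D) (x v : V) :
    ‖force g x v‖ ≤ D / 2 * ‖v‖ ^ 2 := by
  refine ContinuousLinearMap.opNorm_le_bound _ (by have := C.D_pos; positivity) fun w => ?_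
  rw [force_apply, norm_div, Real.norm_ofNat]
  have h1 : ‖fderiv ℝ g x w v v‖ ≤ D * ‖w‖ * ‖v‖ * ‖v‖ := by
    calc ‖fderiv ℝ g x w v v‖ ≤ ‖fderiv ℝ g x w v‖ * ‖v‖ := (fderiv ℝ g x w v).le_opNorm v
      _ ≤ ‖fderiv ℝ g x w‖ * ‖v‖ * ‖v‖ := by gcongr; exact (fderiv ℝ g x w).le_opNorm v
      _ ≤ ‖fderiv ℝ g x‖ * ‖w‖ * ‖v‖ * ‖v‖ := by gcongr; exact (fderiv ℝ g x).le_opNorm w
      _ ≤ D * ‖w‖ * ‖v‖ * ‖v‖ := by gcongr; exact C.D_ge x
  linarith

lemma finrank_dual' : Module.finrank ℝ (V →L[ℝ] ℝ) = Module.finrank ℝ V := by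
  have e : (V →ₗ[ℝ] ℝ) ≃ₗ[ℝ] (V →L[ℝ] ℝ) := LinearMap.toContinuousLinearMap
  rw [← e.finrank_eq, Module.finrank_linearMap, Module.finrank_self, mul_one]

lemma IsPerMetric.isInvertible (hg : IsPerMetric L g) (x : V) : (g x).IsInvertible := by
  have hinj : Function.Injective (g x : V →ₗ[ℝ] (V →L[ℝ] ℝ)) := by
    rw [injective_iff_map_eq_zero]
    intro v hv
    by_contra hne
    have h1 := hg.pos x v hne
    have h2 : g x v = 0 := hv
    rw [h2] at h1
    simp at h1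
  let e := LinearEquiv.ofInjectiveOfFinrankEq (g x : V →ₗ[ℝ] (V →L[ℝ] ℝ)) hinj finrank_dual'.symm
  refine ⟨e.toContinuousLinearEquiv, ?_⟩
  ext v w
  rfl

lemma IsPerMetric.continuous_inverse (hg : IsPerMetric L g) :
    Continuous (fun x => (g x).inverse) := by
  rw [continuous_iff_continuousAt]
  intro x
  have h2 : ContDiffAt ℝ 1 ContinuousLinearMap.inverse (g x) :=
    (hg.isInvertible x).contDiffAt_map_inverse
  exact ContinuousAt.comp h2.continuousAt hg.smooth.continuous.continuousAt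

lemma continuous_force (hg : IsPerMetric L g) :
    Continuous (fun z : V × V => force g z.1 z.2) := by
  unfold force
  have h1 : Continuous (fun z : V × V => (fderiv ℝ g z.1).flip) := by
    have h2 : Continuous (fun z : V × V => fderiv ℝ g z.1) :=
      (hg.smooth.continuous_fderiv one_ne_zero).comp continuous_fst
    exact (ContinuousLinearMap.flipₗᵢ ℝ V V (V →L[ℝ] ℝ)).continuous.comp h2
  have h3 : Continuous (fun z : V × V => ((fderiv ℝ g z.1).flip z.2).flip) :=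
    (ContinuousLinearMap.flipₗᵢ ℝ V V ℝ).continuous.comp (h1.clm_apply continuous_snd)
  exact (h3.clm_apply continuous_snd).const_smul (2 : ℝ)⁻¹

end Helper59.KT
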