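import Pool.Agent.Helper59.KT.Graph

/-! Project KT (MP_478427_gt): closed geodesics near straight geodesics. -/

set_option maxSynthPendingDepth 3
set_option linter.unusedSectionVars false

namespace Helper59.KT

open Set Filter Topology
open scoped NNReal

variable {V : Type*} [NormedAddCommGroup V] [NormedSpace ℝ V] [FiniteDimensional ℝ V]
variable {L : AddSubgroup V} {K : Set V} {g : V → V →L[ℝ] V →L[ℝ] ℝ}

/-- The constant field `ω` is the gradient of `S` and has constant energy `e`. -/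
structure Line (L : AddSubgroup V) (g : V → V →L[ℝ] V →L[ℝ] ℝ) (S : V → ℝ) (P : V →L[ℝ] ℝ)
    (ω : V) (e : ℝ) : Prop where
  grad : ∀ x, HasFDerivAt S (g x ω) x
  per : ∀ x, ∀ l ∈ L, S (x + l) = S x + P l
  energy : ∀ x, g x ω ω = 2 * e

variable {S : V → ℝ} {P : V →L[ℝ] ℝ} {ω : V} {e : ℝ}

lemma Line.smul (H : Line L g S P ω e) (T : ℝ) :
    Line L g (fun x => T * S x) (T • P) (T • ω) (T ^ 2 * e) := by
  refine ⟨fun x => ?_, fun x l hl => ?_, fun x => ?_⟩
  · have h1 := (H.grad x).const_mul T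
    rw [map_smul]
    exact h1
  · rw [H.per x l hl, smul_apply, smul_eq_mul, mul_add]
  · have h1 := H.energy x
    simp only [map_smul, smul_apply, smul_eq_mul, h1]
    ring

lemma mono_of {f f' : ℝ → ℝ} (h : ∀ t, HasDerivAt f (f' t) t) (h0 : ∀ t, 0 ≤ f' t) :
    Monotone f :=
  monotone_of_deriv_nonneg (fun t => (h t).differentiableAt) (fun t => by
    rw [(h t).deriv]; exact h0 t)

/-- The momentum `g x ω` is Lipschitz. -/
lemma Line.mom_lip (hK : Cocompact L K) (hg : IsPerMetric L g) (ω : V) :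
    ∃ C : ℝ≥0, 0 < C ∧ LipschitzWith C (fun x => g x ω) :=
  lip_of_per hK (hg.smooth.clm_apply contDiff_const) fun x l hl => by
    rw [hg.periodic x l hl]

/-- The sum of the momenta over the segment. -/
lemma Line.sum_le (H : Line L g S P ω e) {C : ℝ≥0}
    (hC : LipschitzWith C (fun x => g x ω)) {l : V} (hl : l ∈ L) (N : ℕ) [NeZero N] :
    (N : ℝ)⁻¹ * ∑ s ∈ Finset.range N, g (((s : ℝ) / N) • l) ω l ≤ P l + C * ‖l‖ ^ 2 / N := by
  have hN : (0 : ℝ) < N := by exact_mod_cast Nat.pos_of_ne_zero (NeZero.ne N)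
  have h1 : ∀ s : ℕ, (N : ℝ)⁻¹ * g (((s : ℝ) / N) • l) ω l ≤
      S ((((s + 1 : ℕ) : ℝ) / N) • l) - S (((s : ℝ) / N) • l) + C * ‖l‖ ^ 2 / N ^ 2 := by
    intro s
    set x := ((s : ℝ) / N) • l with hx
    set y := (((s + 1 : ℕ) : ℝ) / N) • l with hy
    have hyx : y - x = (N : ℝ)⁻¹ • l := by
      rw [hy, hx, ← sub_smul]; congr 1; push_cast; field_simp; ring
    have hnyx : ‖y - x‖ = ‖l‖ / N := by
      rw [hyx, norm_smul, norm_inv, Real.norm_eq_abs, abs_of_pos hN]; field_simp
    have h2 := (convex_segment x y).norm_image_sub_le_of_norm_hasFDerivWithin_le'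
      (f := S) (f' := fun z => g z ω) (φ := g x ω) (C := C * (‖l‖ / N))
      (fun z _ => (H.grad z).hasFDerivWithinAt) (fun z hz => by
        have h3 := hC.dist_le_mul z x
        rw [dist_eq_norm, dist_eq_norm] at h3
        refine h3.trans ?_
        have h4 : ‖z - x‖ ≤ ‖y - x‖ := norm_sub_le_of_mem_segment hz
        rw [hnyx] at h4
        gcongr) (left_mem_segment ℝ x y) (right_mem_segment ℝ x y)
    rw [hnyx, Real.norm_eq_abs] at h2
    have h5 := (abs_le.mp h2).1
    have h6 : g x ω (y - x) = (N : ℝ)⁻¹ * g x ω l := by rw [hyx, map_smul, smul_eq_mul]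
    rw [h6] at h5
    have h7 : C * (‖l‖ / N) * (‖l‖ / N) = C * ‖l‖ ^ 2 / N ^ 2 := by ring
    rw [h7] at h5
    linarith
  rw [Finset.mul_sum]
  refine (Finset.sum_le_sum fun s _ => h1 s).trans ?_
  rw [Finset.sum_add_distrib, Finset.sum_range_sub (fun s : ℕ => S (((s : ℝ) / N) • l)),
    Finset.sum_const, Finset.card_range, nsmul_eq_mul]
  have h8 : S (((N : ℝ) / N) • l) - S ((((0 : ℕ) : ℝ) / N) • l) = P l := by
    rw [div_self hN.ne', one_smul]
    simp only [Nat.cast_zero, zero_div, zero_smul]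
    have := H.per 0 l hl
    rw [zero_add] at this
    rw [this]; ring
  rw [h8]
  have h9 : (N : ℝ) * (C * ‖l‖ ^ 2 / N ^ 2) = C * ‖l‖ ^ 2 / N := by field_simp
  rw [h9]

/-- The competitor: the straight segment. -/
lemma Line.comp (hg : IsPerMetric L g) (H : Line L g S P ω e) {C : ℝ≥0}
    (hC : LipschitzWith C (fun x => g x ω)) {l : V} (hl : l ∈ L)
    {B : ℝ} (hB : ∀ x, g x (l - ω) (l - ω) ≤ B) (N : ℕ) [NeZero N] :
    act g N l (fun _ => 0) * N / 2 ≤ P l - e + B / 2 + C * ‖l‖ ^ 2 / N := by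
  have hN : (0 : ℝ) < N := by exact_mod_cast Nat.pos_of_ne_zero (NeZero.ne N)
  have h1 : ∀ x, g x l l ≤ 2 * g x ω l - 2 * e + B := by
    intro x
    have e1 : l = ω + (l - ω) := by abel
    have e2 : g x l l = g x ω ω + 2 * g x ω (l - ω) + g x (l - ω) (l - ω) := by
      conv_lhs => rw [e1]
      have e4 : g x (ω + (l - ω)) (ω + (l - ω)) =
          g x ω ω + g x ω (l - ω) + (g x (l - ω) ω + g x (l - ω) (l - ω)) := by
        rw [map_add (g x), add_apply, map_add, map_add]
      rw [e4, hg.symm x (l - ω) ω]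
      ring
    have e3 := hB x
    rw [e2, map_sub (g x ω), H.energy x]
    linarith
  have h2 : act g N l (fun _ => 0) = (N : ℝ)⁻¹ ^ 2 *
      ∑ s ∈ Finset.range N, g (((s : ℝ) / N) • l) l l := by
    rw [Finset.mul_sum]
    have e1 : ∀ s ∈ Finset.range N, (N : ℝ)⁻¹ ^ 2 * g (((s : ℝ) / N) • l) l l =
        (fun i : ZMod N => (N : ℝ)⁻¹ ^ 2 * g (((i.val : ℝ) / N) • l) l l) (s : ZMod N) := by
      intro s hs
      simp only
      rw [ZMod.val_natCast_of_lt (Finset.mem_range.mp hs)]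
    rw [Finset.sum_congr rfl e1,
      sum_range_zmod N (fun i : ZMod N => (N : ℝ)⁻¹ ^ 2 * g (((i.val : ℝ) / N) • l) l l)]
    unfold act
    refine Finset.sum_congr rfl fun i _ => ?_
    have e2 : edge N l (fun _ => 0) i = (N : ℝ)⁻¹ • l := by simp [edge]
    have e3 : vtx N l (fun _ => 0) i = ((i.val : ℝ) / N) • l := by simp [vtx]
    rw [e2, e3]
    simp only [map_smul, smul_apply, smul_eq_mul]
    ring
  have h3 : ∑ s ∈ Finset.range N, g (((s : ℝ) / N) • l) l l ≤
      2 * ∑ s ∈ Finset.range N, g (((s : ℝ) / N) • l) ω l + N * (B - 2 * e) := by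
    rw [Finset.mul_sum]
    have e1 : (N : ℝ) * (B - 2 * e) = ∑ _s ∈ Finset.range N, (B - 2 * e) := by
      rw [Finset.sum_const, Finset.card_range, nsmul_eq_mul]
    rw [e1, ← Finset.sum_add_distrib]
    refine Finset.sum_le_sum fun s _ => ?_
    have := h1 (((s : ℝ) / N) • l)
    linarith
  have h4 := H.sum_le hC hl N
  set A := ∑ s ∈ Finset.range N, g (((s : ℝ) / N) • l) ω l
  set A' := ∑ s ∈ Finset.range N, g (((s : ℝ) / N) • l) l l
  rw [h2]
  have h5 : (N : ℝ)⁻¹ ^ 2 * A' * N / 2 = (N : ℝ)⁻¹ * A' / 2 := by field_simp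
  rw [h5]
  have h6 : (N : ℝ)⁻¹ * A' ≤ (N : ℝ)⁻¹ * (2 * A + N * (B - 2 * e)) := by gcongr
  have h7 : (N : ℝ)⁻¹ * (2 * A + N * (B - 2 * e)) = 2 * ((N : ℝ)⁻¹ * A) + (B - 2 * e) := by
    field_simp
  linarith

/-- Closed geodesics of class `l` near segments of direction `ω`. -/
theorem Line.straight (hK : Cocompact L K) (hg : IsPerMetric L g) (H : Line L g S P ω e)
    {l : V} (hl : l ∈ L) {B : ℝ} (hB : ∀ x, g x (l - ω) (l - ω) ≤ B) :
    ∃ (γ v : ℝ → V) (En : ℝ), (∀ t, HasDerivAt γ (v t) t) ∧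
      (∀ t, HasDerivAt (fun s => g (γ s) (v s)) (force g (γ t) (v t)) t) ∧
      (∀ t, γ (t + 1) = γ t + l) ∧ (∀ t, g (γ t) (v t) (v t) = 2 * En) ∧
      ∀ (w : V →L[ℝ] ℝ) (c : ℝ), 0 < c → (∀ x u, (w u) ^ 2 ≤ c ^ 2 * g x u u) →
        ∀ s t, s ≤ t → t ≤ s + 1 → |w (γ t - γ s - (t - s) • ω)| ≤ c * Real.sqrt (B * (t - s)) := by
  obtain ⟨C, hC0, hC⟩ := Line.mom_lip hK hg ω
  have hcl := exists_closed (T₀ := 1) hK hg one_pos hl (A := P l - e + B / 2) (by
    intro ε hε
    have h0 : Tendsto (fun j : ℕ => C * ‖l‖ ^ 2 / ((j : ℝ) + 1)) atTop (𝓝 0) := by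
      have := (tendsto_one_div_add_atTop_nhds_zero_nat (𝕜 := ℝ)).const_mul (C * ‖l‖ ^ 2)
      simpa [div_eq_mul_inv] using this
    filter_upwards [h0.eventually (gt_mem_nhds hε)] with j hj hne
    refine ⟨fun _ => 0, ?_⟩
    have h1 := H.comp hg hC hl hB (1 * (j + 1))
    have h2 : ((1 * (j + 1) : ℕ) : ℝ) = (j : ℝ) + 1 := by push_cast; ring
    rw [h2] at h1
    linarith)
  obtain ⟨γ, v, En, h1, h2, h3, h4, h5⟩ := hcl
  refine ⟨γ, v, En, h1, h2, fun t => by simpa using h3 t, h4, ?_⟩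
  intro w c hc hw s t hst hts
  have hG : ∀ t, HasDerivAt (fun t => (En + e) * t - S (γ t))
      (En + e - g (γ t) ω (v t)) t := by
    intro t
    have e1 := (hasDerivAt_id t).const_mul (En + e)
    rw [mul_one] at e1
    exact e1.sub ((H.grad (γ t)).comp_hasDerivAt t (h1 t))
  have hq : ∀ t, g (γ t) (v t - ω) (v t - ω) = 2 * (En + e - g (γ t) ω (v t)) := by
    intro t
    rw [map_sub (g (γ t)), sub_apply, map_sub, map_sub, H.energy, h4 t, hg.symm (γ t) (v t) ω]
    ring
  have hG0 : ∀ t, 0 ≤ En + e - g (γ t) ω (v t) := by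
    intro t
    have e1 := hq t
    have e2 : 0 ≤ g (γ t) (v t - ω) (v t - ω) := by
      by_cases h : v t - ω = 0
      · rw [h]; simp
      · exact (hg.pos _ _ h).le
    linarith
  have hGm := mono_of hG hG0
  have hGper : (En + e) * t - S (γ t) - ((En + e) * s - S (γ s)) ≤ B / 2 := by
    have e1 := hGm hts
    simp only at e1
    have e2 : γ (s + 1) = γ s + l := by simpa using h3 s
    rw [e2, H.per _ l hl] at e1
    have e3 : En * (1 : ℝ) ≤ P l - e + B / 2 := by simpa using h5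
    nlinarith
  have hφ : ∀ τ, HasDerivAt (fun τ => w (γ τ - γ s - (τ - s) • ω)) (w (v τ - ω)) τ := by
    intro τ
    have e1 : HasDerivAt (fun τ => γ τ - γ s - (τ - s) • ω) (v τ - ω) τ := by
      have e2 := ((h1 τ).sub_const (γ s)).sub
        (((hasDerivAt_id τ).sub_const s).smul_const ω)
      rw [one_smul] at e2
      exact e2
    exact w.hasFDerivAt.comp_hasDerivAt τ e1
  have hkey : ∀ κ > 0, |w (γ t - γ s - (t - s) • ω)| ≤
      κ * (t - s) / 2 + c ^ 2 / κ * (B / 2) := by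
    intro κ hκ
    have hpt : ∀ τ, |w (v τ - ω)| ≤ κ / 2 + c ^ 2 / κ * (En + e - g (γ τ) ω (v τ)) := by
      intro τ
      have e1 := hw (γ τ) (v τ - ω)
      rw [hq τ] at e1
      set a := w (v τ - ω)
      set q := En + e - g (γ τ) ω (v τ)
      have e2 : κ / 2 + c ^ 2 / κ * q = (κ ^ 2 + c ^ 2 * (2 * q)) / (2 * κ) := by
        field_simp
      rw [e2, le_div_iff₀ (by positivity)]
      nlinarith [sq_nonneg (|a| - κ), sq_abs a]
    have hm1 := mono_of (f := fun τ => κ * τ / 2 + c ^ 2 / κ * ((En + e) * τ - S (γ τ)) -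
        w (γ τ - γ s - (τ - s) • ω))
      (f' := fun τ => κ / 2 + c ^ 2 / κ * (En + e - g (γ τ) ω (v τ)) - w (v τ - ω)) (by
        intro τ
        have e1 : HasDerivAt (fun τ : ℝ => κ * τ / 2) (κ / 2) τ := by
          simpa using ((hasDerivAt_id τ).const_mul κ).div_const 2
        exact (e1.add ((hG τ).const_mul _)).sub (hφ τ)) (by
        intro τ
        have e1 := hpt τ
        have e2 := le_abs_self (w (v τ - ω))
        linarith)
    have hm2 := mono_of (f := fun τ => κ * τ / 2 + c ^ 2 / κ * ((En + e) * τ - S (γ τ)) +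
        w (γ τ - γ s - (τ - s) • ω))
      (f' := fun τ => κ / 2 + c ^ 2 / κ * (En + e - g (γ τ) ω (v τ)) + w (v τ - ω)) (by
        intro τ
        have e1 : HasDerivAt (fun τ : ℝ => κ * τ / 2) (κ / 2) τ := by
          simpa using ((hasDerivAt_id τ).const_mul κ).div_const 2
        exact (e1.add ((hG τ).const_mul _)).add (hφ τ)) (by
        intro τ
        have e1 := hpt τ
        have e2 := neg_abs_le (w (v τ - ω))
        linarith)
    have e1 := hm1 hst
    have e2 := hm2 hst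
    simp only at e1 e2
    have e3 : w (γ s - γ s - (s - s) • ω) = 0 := by simp
    rw [e3] at e1 e2
    have e4 : c ^ 2 / κ * ((En + e) * t - S (γ t) - ((En + e) * s - S (γ s))) ≤
        c ^ 2 / κ * (B / 2) := by gcongr
    have e5 : c ^ 2 / κ * ((En + e) * t - S (γ t)) -
        c ^ 2 / κ * ((En + e) * s - S (γ s)) ≤ c ^ 2 / κ * (B / 2) := by
      rw [← mul_sub]; exact e4
    rw [abs_le]
    constructor <;> linarith
  -- optimise `κ`
  have hB0 : 0 ≤ B := by
    have e1 : 0 ≤ g 0 (l - ω) (l - ω) := by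
      by_cases h : l - ω = 0
      · rw [h]; simp
      · exact (hg.pos _ _ h).le
    exact e1.trans (hB 0)
  rcases eq_or_lt_of_le hst with rfl | hlt
  · simp
  rcases eq_or_lt_of_le hB0 with h0 | hBpos
  · have e1 : |w (γ t - γ s - (t - s) • ω)| ≤ 0 := by
      refine le_of_forall_pos_le_add fun ε hε => ?_
      have e2 := hkey (2 * ε / (t - s)) (by have := sub_pos.mpr hlt; positivity)
      rw [← h0] at e2
      have e3 : 2 * ε / (t - s) * (t - s) / 2 = ε := by
        have := (sub_pos.mpr hlt).ne'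
        field_simp
      rw [e3] at e2
      simpa using e2
    refine e1.trans (by positivity)
  · have hts0 := sub_pos.mpr hlt
    set r := Real.sqrt (B * (t - s)) with hr
    have hr2 : r ^ 2 = B * (t - s) := Real.sq_sqrt (by positivity)
    have hr0 : 0 < r := Real.sqrt_pos.mpr (by positivity)
    have e2 := hkey (c * r / (t - s)) (by positivity)
    have e3 : c * r / (t - s) * (t - s) / 2 = c * r / 2 := by field_simp
    have e4 : c ^ 2 / (c * r / (t - s)) * (B / 2) = c * r / 2 := by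
      field_simp
      rw [hr2]; ring
    rw [e3, e4] at e2
    linarith

/-- The lines of direction `ω` are geodesics. -/
lemma Line.geodesic (hg : IsPerMetric L g) (H : Line L g S P ω e) (x : V) (t : ℝ) :
    HasDerivAt (fun s : ℝ => g (x + s • ω) ω) (force g (x + t • ω) ω) t := by
  have hd : ∀ y, HasFDerivAt g (fderiv ℝ g y) y := fun y =>
    (hg.smooth.differentiable one_ne_zero y).hasFDerivAt
  -- the energy is constant
  have h1 : ∀ y w, fderiv ℝ g y w ω ω = 0 := by
    intro y w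
    have e1 := ((hd y).clm_apply (hasFDerivAt_const ω y)).clm_apply (hasFDerivAt_const ω y)
    have e2 : (fun z => g z ω ω) = fun _ => 2 * e := funext H.energy
    have e3 : HasFDerivAt (fun z => g z ω ω) (0 : V →L[ℝ] ℝ) y := by
      rw [e2]; exact hasFDerivAt_const _ _
    have e4 := congrArg (fun f : V →L[ℝ] ℝ => f w) (e1.unique e3)
    simpa using e4
  -- symmetry
  have h2 : ∀ y u w, fderiv ℝ g y u ω w = fderiv ℝ g y w ω u := by
    intro y u w
    have hS : fderiv ℝ S = fun z => g z ω := funext fun z => (H.grad z).fderiv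
    have hS2 : ContDiff ℝ 2 S := by
      rw [show (2 : WithTop ℕ∞) = 1 + 1 from by norm_num, contDiff_succ_iff_fderiv]
      refine ⟨fun z => (H.grad z).differentiableAt, by simp, ?_⟩
      rw [hS]
      exact hg.smooth.clm_apply contDiff_const
    have e1 := (hS2.contDiffAt (x := y)).isSymmSndFDerivAt (by
      rw [minSmoothness_of_isRCLikeNormedField])
    have e2 := e1 u w
    rw [hS] at e2
    have e3 := ((hd y).clm_apply (hasFDerivAt_const ω y)).fderiv
    rw [e3] at e2
    simpa using e2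
  have h3 : force g (x + t • ω) ω = 0 := by
    ext w
    rw [force_apply, h1]
    simp
  rw [h3]
  have h4 : HasDerivAt (fun s : ℝ => x + s • ω) ω t := by
    simpa using ((hasDerivAt_id t).smul_const ω).const_add x
  have h5 := ((hd (x + t • ω)).clm_apply (hasFDerivAt_const ω (x + t • ω))).comp_hasDerivAt t h4
  refine h5.congr_deriv ?_
  ext w
  have e1 := h2 (x + t • ω) ω w
  rw [h1] at e1
  simpa using e1

end Helper59.KT
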