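import Pool.Agent.Helper59.KT.Dense

/-! Project KT (MP_478427_gt): rational directions, dimensions at most three. -/

set_option maxSynthPendingDepth 3
set_option linter.unusedSectionVars false

namespace Helper59.Torus

open Set Filter Topology Helper59.KT

variable {n : ℕ} {g : Vec n → Fin n → Fin n → ℝ}

lemma prop_of {c ω : Vec n} (hω : ω ≠ 0) (hc : c ≠ 0)
    (h : ∀ i j, c i * ω j = c j * ω i) : ∃ r : ℝ, r ≠ 0 ∧ ∀ i, ω i = r * c i := by
  obtain ⟨i₀, hi₀⟩ : ∃ i, c i ≠ 0 := by
    by_contra hcon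
    push Not at hcon
    exact hc (funext hcon)
  have h1 : ∀ j, ω j = ω i₀ / c i₀ * c j := by
    intro j
    have := h i₀ j
    field_simp
    linarith
  refine ⟨ω i₀ / c i₀, ?_, h1⟩
  intro h0
  apply hω
  ext j
  rw [h1 j, h0, zero_mul]
  rfl

lemma dep_of_minors {k k' : Fin n → ℤ} (h : ∀ i j, k i * k' j = k j * k' i) :
    ∃ a b : ℤ, (a ≠ 0 ∨ b ≠ 0) ∧ ∀ i, a * k i = b * k' i := by
  by_cases hk : k' = 0
  · exact ⟨0, 1, Or.inr one_ne_zero, fun i => by simp [hk]⟩
  · obtain ⟨i₀, hi₀⟩ : ∃ i, k' i ≠ 0 := by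
      by_contra hcon
      push Not at hcon
      exact hk (funext hcon)
    refine ⟨k' i₀, k i₀, Or.inl hi₀, fun i => ?_⟩
    have := h i i₀
    linarith

lemma rational_of (hn : n ≤ 3) {ω : Vec n} (hω : ω ≠ 0) (h : ¬ AtMostOneRelation ω) :
    ∃ (r : ℝ) (m : Fin n → ℤ), m ≠ 0 ∧ 0 < r ∧ ∀ i, ω i = r * m i := by
  unfold AtMostOneRelation at h
  push Not at h
  obtain ⟨k, k', hk, hk', hind⟩ := h
  have hminor : ∃ i j, k i * k' j ≠ k j * k' i := by
    by_contra hcon
    push Not at hcon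
    obtain ⟨a, b, hab, hd⟩ := dep_of_minors hcon
    obtain ⟨i, hi⟩ := hind a b hab
    exact hi (hd i)
  -- an integer vector orthogonal to `k`, `k'`
  have hmain : ∃ c : Fin n → ℤ, c ≠ 0 ∧ ∀ i j, (c i : ℝ) * ω j = c j * ω i := by
    obtain ⟨i, j, hij⟩ := hminor
    interval_cases n
    · exact i.elim0
    · exfalso; apply hij; rw [Subsingleton.elim i j]
    · exfalso
      simp only [Fin.sum_univ_two] at hk hk'
      have hdet : k 0 * k' 1 - k 1 * k' 0 ≠ 0 := by
        intro h0
        fin_cases i <;> fin_cases j <;> simp at hij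
        · apply hij; linarith
        · apply hij; linarith
      have hdet' : ((k 0 : ℝ) * k' 1 - k 1 * k' 0) ≠ 0 := by exact_mod_cast hdet
      apply hω
      ext l
      fin_cases l
      · have : ((k 0 : ℝ) * k' 1 - k 1 * k' 0) * ω 0 = 0 := by linear_combination k' 1 * hk - k 1 * hk'
        simpa using (mul_eq_zero.mp this).resolve_left hdet'
      · have : ((k 0 : ℝ) * k' 1 - k 1 * k' 0) * ω 1 = 0 := by linear_combination k 0 * hk' - k' 0 * hk
        simpa using (mul_eq_zero.mp this).resolve_left hdet'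
    · simp only [Fin.sum_univ_three] at hk hk'
      refine ⟨![k 1 * k' 2 - k 2 * k' 1, k 2 * k' 0 - k 0 * k' 2, k 0 * k' 1 - k 1 * k' 0],
        ?_, ?_⟩
      · intro h0
        have e0 := congrFun h0 0
        have e1 := congrFun h0 1
        have e2 := congrFun h0 2
        simp at e0 e1 e2
        fin_cases i <;> fin_cases j <;> simp at hij <;> apply hij <;> linarith
      · intro i j
        fin_cases i <;> fin_cases j <;> simp
        · linear_combination k' 2 * hk - k 2 * hk'
        · linear_combination k 1 * hk' - k' 1 * hk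
        · linear_combination k 2 * hk' - k' 2 * hk
        · linear_combination k' 0 * hk - k 0 * hk'
        · linear_combination k' 1 * hk - k 1 * hk'
        · linear_combination k 0 * hk' - k' 0 * hk
  obtain ⟨c, hc, hcω⟩ := hmain
  obtain ⟨r, hr, hrω⟩ := prop_of (c := fun i => (c i : ℝ)) hω (by
    intro h0
    apply hc
    ext i
    have := congrFun h0 i
    simpa using this) hcω
  rcases lt_or_gt_of_ne hr with hneg | hpos
  · refine ⟨-r, -c, by simpa using hc, by linarith, fun i => ?_⟩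
    rw [hrω i]
    simp
  · exact ⟨r, c, hc, hpos, hrω⟩

lemma through_rational (hg : IsMetric g) {ω : Vec n} (hω0 : ω ≠ 0) {S : Vec n → ℝ} {P : Vec n}
    {E : ℝ} (H : IsLinearGraph g ω S P E) {r : ℝ} {m : Fin n → ℤ} (hr : 0 < r)
    (hω : ∀ i, ω i = r * m i) (x : Vec n) :
    ∃ γ v : ℝ → Vec n, IsClosedGeodesic g γ v ∧ γ 0 = x := by
  refine ⟨fun t => x + t • ω, fun _ => ω, ⟨geodesic_of hg (fun t => ?_)
    ((line_of hg H).geodesic (perMetric hg) x), hω0, r⁻¹, by positivity, m, fun t => ?_⟩, by simp⟩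
  · simpa using ((hasDerivAt_id t).smul_const ω).const_add x
  · ext i
    simp only [Pi.add_apply, Pi.smul_apply, smul_eq_mul, intVec, hω i]
    field_simp
    ring

/-- In dimension at most three the closed geodesics are dense. -/
theorem dense_three (hg : IsMetric g) (hn : n ≤ 3) {ω : Vec n} (hω0 : ω ≠ 0) {S : Vec n → ℝ}
    {P : Vec n} {E : ℝ} (H : IsLinearGraph g ω S P E) (x : Vec n) {ε : ℝ} (hε : 0 < ε) :
    ∃ γ v : ℝ → Vec n, IsClosedGeodesic g γ v ∧ Approaches γ x ε := by
  by_cases hrel : AtMostOneRelation ω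
  · obtain ⟨γ, v, h1, h2⟩ := dense_of hg hω0 H hrel hε
    exact ⟨γ, v, h1, h2 x⟩
  · obtain ⟨r, m, _, hr, hm⟩ := rational_of hn hω0 hrel
    obtain ⟨γ, v, h1, h2⟩ := through_rational hg hω0 H hr hm x
    refine ⟨γ, v, h1, 0, 0, fun i => ?_⟩
    rw [h2]
    simpa using hε

end Helper59.Torus
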