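import Pool.Agent.Helper59.KT.Defs
import Pool.Agent.Helper59.KT.Straight
import Pool.Agent.Helper59.KT.Kron
import Pool.Agent.Helper59.TG.Transfer

/-! Project KT (MP_478427_gt): transfer to coordinates. -/

set_option maxSynthPendingDepth 3
set_option linter.unusedSectionVars false

namespace Helper59.Torus

open Set Filter Topology Helper59.KT

variable {n : ℕ}

/-- The lattice `ℤⁿ`. -/
def lat (n : ℕ) : AddSubgroup (Vec n) where
  carrier := range intVec
  zero_mem' := ⟨0, by ext i; simp [intVec]⟩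
  add_mem' := by
    rintro _ _ ⟨a, rfl⟩ ⟨b, rfl⟩
    exact ⟨a + b, by ext i; simp [intVec]⟩
  neg_mem' := by
    rintro _ ⟨a, rfl⟩
    exact ⟨-a, by ext i; simp [intVec]⟩

lemma intVec_mem (m : Fin n → ℤ) : intVec m ∈ lat n := ⟨m, rfl⟩

lemma cocompact : Cocompact (lat n) (Icc (0 : Vec n) 1) := by
  refine ⟨isCompact_Icc, fun x => ⟨intVec fun i => ⌊x i⌋, intVec_mem _, ?_⟩⟩
  constructor
  · intro i
    simp only [Pi.zero_apply, Pi.sub_apply, intVec]
    linarith [Int.floor_le (x i)]
  · intro i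
    simp only [Pi.one_apply, Pi.sub_apply, intVec]
    linarith [Int.lt_floor_add_one (x i)]

variable {g : Vec n → Fin n → Fin n → ℝ}

lemma perMetric (hg : IsMetric g) : IsPerMetric (lat n) (toC g) where
  smooth := hg.toC.smooth
  symm := hg.toC.symm
  pos := fun x v hv => by
    rw [toC_apply]
    exact hg.pos x v hv
  periodic := by
    rintro x _ ⟨m, rfl⟩
    unfold toC
    rw [hg.periodic x m]

lemma toC_ω (hg : IsMetric g) {ω : Vec n} {S : Vec n → ℝ} {P : Vec n} {E : ℝ}
    (H : IsLinearGraph g ω S P E) (x : Vec n) : toC g x ω = fderiv ℝ S x := by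
  ext w
  rw [pd_eq]
  have h2 : w = ∑ i, w i • (Pi.single i 1 : Fin n → ℝ) := by
    ext k
    simp [Pi.single_apply]
  conv_lhs => rw [h2]
  rw [map_sum]
  refine Finset.sum_congr rfl fun i _ => ?_
  rw [map_smul, smul_eq_mul, toC_single hg, H.gradient]

/-- The period functional. -/
noncomputable def perC (P : Vec n) : (Fin n → ℝ) →L[ℝ] ℝ :=
  ∑ i, P i • ContinuousLinearMap.proj (R := ℝ) (φ := fun _ : Fin n => ℝ) i

lemma perC_apply (P v : Vec n) : perC P v = ∑ i, P i * v i := by
  simp [perC, sum_apply, smul_apply]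

lemma line_of (hg : IsMetric g) {ω : Vec n} {S : Vec n → ℝ} {P : Vec n} {E : ℝ}
    (H : IsLinearGraph g ω S P E) : Line (lat n) (toC g) S (perC P) ω (E / 2) where
  grad := fun x => by
    rw [toC_ω hg H]
    exact (H.differentiable x).hasFDerivAt
  per := by
    rintro x _ ⟨m, rfl⟩
    rw [H.periods, perC_apply]
    rfl
  energy := fun x => by
    rw [toC_apply, H.energy]; ring

lemma geodesic_of (hg : IsMetric g) {γ v : ℝ → Vec n} (h1 : ∀ t, HasDerivAt γ (v t) t)
    (h2 : ∀ t, HasDerivAt (fun s => toC g (γ s) (v s)) (force (toC g) (γ t) (v t)) t) :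
    IsGeodesic g γ v := by
  refine ⟨fun t i => (hasDerivAt_pi.mp (h1 t)) i, fun t i => ?_⟩
  have h3 : HasDerivAt (fun s => toC g (γ s) (v s) (Pi.single i 1))
      (force (toC g) (γ t) (v t) (Pi.single i 1)) t := by
    have := (h2 t).clm_apply (hasDerivAt_const t (Pi.single i 1 : Fin n → ℝ))
    simpa using this
  simp only [toC_single hg] at h3
  rw [force_apply, fderiv_toC hg] at h3
  exact h3

/-- The estimate. -/
theorem estimate (hg : IsMetric g) {ω : Vec n} {S : Vec n → ℝ} {P : Vec n} {E : ℝ}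
    (H : IsLinearGraph g ω S P E) {a b : ℝ} (ha : 0 < a) (hab : Bounds g a b)
    (m : Fin n → ℤ) (T : ℝ) :
    ∃ γ v : ℝ → Vec n, IsGeodesic g γ v ∧ (m ≠ 0 → v 0 ≠ 0) ∧
      (∀ t, γ (t + 1) = γ t + intVec m) ∧ ∀ s t, s ≤ t → t ≤ s + 1 →
        ∑ i, (γ t i - γ s i - (t - s) * T * ω i) ^ 2 ≤
          (b / a) ^ 2 * (t - s) * ∑ i, (m i - T * ω i) ^ 2 := by
  have hK := cocompact (n := n)
  have hG := perMetric hg
  have hB : ∀ x, toC g x (intVec m - T • ω) (intVec m - T • ω) ≤
      b ^ 2 * ∑ i, (m i - T * ω i) ^ 2 := by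
    intro x
    rw [toC_apply]
    exact (hab x (intVec m - T • ω)).2
  obtain ⟨γ, v, En, h1, h2, h3, h4, h5⟩ :=
    ((line_of hg H).smul T).straight hK hG (intVec_mem m) hB
  refine ⟨γ, v, geodesic_of hg h1 h2, ?_, h3, ?_⟩
  · intro hm hv0
    apply hm
    have e1 : En = 0 := by
      have := h4 0
      rw [hv0] at this
      simp at this
      linarith
    have e2 : ∀ t, v t = 0 := by
      intro t
      by_contra hne
      have e3 := hG.pos (γ t) (v t) hne
      rw [h4 t, e1] at e3
      simp at e3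
    have e3 : γ 1 = γ 0 := is_const_of_deriv_eq_zero (fun t => (h1 t).differentiableAt)
      (fun t => by rw [(h1 t).deriv, e2 t]) 1 0
    have e4 := h3 0
    rw [zero_add, e3] at e4
    have e5 : intVec m = 0 := by
      have := congrArg (fun z => z - γ 0) e4
      simpa using this.symm
    ext i
    have e6 := congrFun e5 i
    simpa [intVec] using e6
  · intro s t hst hts
    set y : Vec n := γ t - γ s - (t - s) • (T • ω) with hy
    set q : ℝ := ∑ i, y i ^ 2 with hq
    have hq0 : 0 ≤ q := Finset.sum_nonneg fun i _ => sq_nonneg _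
    have hyi : ∑ i, (γ t i - γ s i - (t - s) * T * ω i) ^ 2 = q := by
      rw [hq]
      refine Finset.sum_congr rfl fun i _ => ?_
      simp only [hy, Pi.sub_apply, Pi.smul_apply, smul_eq_mul]
      ring
    rw [hyi]
    set R : ℝ := ∑ i, ((m i : ℝ) - T * ω i) ^ 2 with hR
    have hR0 : 0 ≤ R := Finset.sum_nonneg fun i _ => sq_nonneg _
    have hts0 : 0 ≤ t - s := sub_nonneg.mpr hst
    rcases eq_or_lt_of_le hq0 with h0 | hqpos
    · rw [← h0]; positivity
    have h6 := h5 (perC y) (Real.sqrt q / a) (by positivity) (by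
      intro x u
      rw [perC_apply, div_pow, Real.sq_sqrt hq0]
      have e1 : (∑ i, y i * u i) ^ 2 ≤ (∑ i, y i ^ 2) * ∑ i, u i ^ 2 :=
        Finset.sum_mul_sq_le_sq_mul_sq _ _ _
      have e2 := (hab x u).1
      rw [toC_apply]
      have e3 : ∑ i, u i ^ 2 ≤ (∑ i, ∑ j, g x i j * u i * u j) / a ^ 2 := by
        rw [le_div_iff₀ (by positivity)]; linarith
      calc _ ≤ q * ∑ i, u i ^ 2 := e1
        _ ≤ q * ((∑ i, ∑ j, g x i j * u i * u j) / a ^ 2) := by gcongr
        _ = _ := by ring) s t hst hts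
    have h7 : perC y (γ t - γ s - (t - s) • T • ω) = q := by
      rw [perC_apply, hq]
      refine Finset.sum_congr rfl fun i _ => ?_
      rw [sq]
    rw [h7, abs_of_pos hqpos] at h6
    have h8 : q ^ 2 ≤ (Real.sqrt q / a * Real.sqrt (b ^ 2 * R * (t - s))) ^ 2 :=
      pow_le_pow_left₀ hq0 h6 2
    rw [mul_pow, div_pow, Real.sq_sqrt hq0, Real.sq_sqrt (by positivity)] at h8
    have h9 : q * q ≤ q * ((b / a) ^ 2 * (t - s) * R) := by
      calc q * q = q ^ 2 := by ring
        _ ≤ q / a ^ 2 * (b ^ 2 * R * (t - s)) := h8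
        _ = q * ((b / a) ^ 2 * (t - s) * R) := by field_simp
    exact le_of_mul_le_mul_left h9 hqpos

end Helper59.Torus
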